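import Pool.Agent.Lib.MP_1dedaf_gt.Mg.G029

/-!
# TASK OP B2: positivity of the moments

Proof. `mL_pos`, `mI_pos`: `mL_int`, `mI_int` and `intervalIntegral.intervalIntegral_pos_of_pos` (continuous positive integrand). `mL_nonneg'`: same with `≤`.
`mP_pos`: `mP_int`, integrand `mL φ a x * exp (-φ x)` is continuous in `x` and positive for `x > a` (use `intervalIntegral.intervalIntegral_pos_of_pos_on`);
`mQ_pos`, `mG_pos` the same. `dD_pos'`: `dD f g a b = ∫ (e^{-f} - e^{-g})`, integrand continuous, `≥ 0`, positive at the point of `fat`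
(`intervalIntegral.integral_pos` or `integral_lt_integral_of_continuousOn_of_le_of_exists_lt`); `dM_pos'`: same with `e^g - e^f`.
-/

set_option autoImplicit false

open MeasureTheory Set Filter Topology

namespace Pool.Agent.Lib.MP_1dedaf_gt.DK

namespace OP

variable {φ : ℝ → ℝ} {a b : ℝ}

private theorem B2_cL {φ : ℝ → ℝ} (h : Continuous φ) (a : ℝ) : Continuous (fun x => mL φ a x) := by
  unfold mL
  exact (cA_cont h).sub continuous_const

private theorem B2_cL' {φ : ℝ → ℝ} (h : Continuous φ) (b : ℝ) : Continuous (fun x => mL φ x b) := by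
  unfold mL
  exact continuous_const.sub (cA_cont h)

theorem mL_pos (h : Continuous φ) (hab : a < b) : 0 < mL φ a b := by
  rw [mL_int h]
  exact intervalIntegral.intervalIntegral_pos_of_pos ((Real.continuous_exp.comp h).intervalIntegrable a b) (fun x => Real.exp_pos _) hab

theorem mI_pos (h : Continuous φ) (hab : a < b) : 0 < mI φ a b := by
  rw [mI_int h]
  exact intervalIntegral.intervalIntegral_pos_of_pos ((Real.continuous_exp.comp h.neg).intervalIntegrable a b) (fun x => Real.exp_pos _) hab

theorem mP_pos (h : Continuous φ) (hab : a < b) : 0 < mP φ a b := by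
  rw [mP_int h]
  refine intervalIntegral.intervalIntegral_pos_of_pos_on ?_ ?_ hab
  · exact (((B2_cL h a).mul (Real.continuous_exp.comp h.neg))).intervalIntegrable a b
  · intro x hx
    exact mul_pos (mL_pos h hx.1) (Real.exp_pos _)

theorem mQ_pos (h : Continuous φ) (hab : a < b) : 0 < mQ φ a b := by
  rw [mQ_int h]
  refine intervalIntegral.intervalIntegral_pos_of_pos_on ?_ ?_ hab
  · exact (((B2_cL' h b).mul (Real.continuous_exp.comp h.neg))).intervalIntegrable a b
  · intro x hx
    exact mul_pos (mL_pos h hx.2) (Real.exp_pos _)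

theorem mG_pos (h : Continuous φ) (hab : a < b) : 0 < mG φ a b := by
  rw [mG_int h]
  refine intervalIntegral.intervalIntegral_pos_of_pos_on ?_ ?_ hab
  · exact (((B2_cL h a).mul (B2_cL' h b)).mul (Real.continuous_exp.comp h.neg)).intervalIntegrable a b
  · intro x hx
    exact mul_pos (mul_pos (mL_pos h hx.1) (mL_pos h hx.2)) (Real.exp_pos _)

theorem dD_pos' {f g : ℝ → ℝ} (hf : Continuous f) (hg : Continuous g) (hab : a < b) (hle : ∀ x ∈ Icc a b, f x ≤ g x) (hfat : ∃ x ∈ Icc a b, f x < g x) :
    0 < dD f g a b := by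
  have e1 : Continuous (fun x => Real.exp (-f x)) := Real.continuous_exp.comp hf.neg
  have e2 : Continuous (fun x => Real.exp (-g x)) := Real.continuous_exp.comp hg.neg
  unfold dD
  rw [mI_int hf, mI_int hg]
  have key : ∫ x in a..b, Real.exp (-g x) < ∫ x in a..b, Real.exp (-f x) := by
    refine intervalIntegral.integral_lt_integral_of_continuousOn_of_le_of_exists_lt hab e2.continuousOn e1.continuousOn ?_ ?_
    · intro x hx
      exact Real.exp_le_exp.mpr (neg_le_neg (hle x ⟨hx.1.le, hx.2⟩))
    · obtain ⟨x, hx, hx'⟩ := hfat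
      exact ⟨x, hx, Real.exp_lt_exp.mpr (neg_lt_neg hx')⟩
  linarith

theorem dM_pos' {f g : ℝ → ℝ} (hf : Continuous f) (hg : Continuous g) (hab : a < b) (hle : ∀ x ∈ Icc a b, f x ≤ g x) (hfat : ∃ x ∈ Icc a b, f x < g x) :
    0 < dM f g a b := by
  have e1 : Continuous (fun x => Real.exp (f x)) := Real.continuous_exp.comp hf
  have e2 : Continuous (fun x => Real.exp (g x)) := Real.continuous_exp.comp hg
  unfold dM
  rw [mL_int hf, mL_int hg]
  have key : ∫ x in a..b, Real.exp (f x) < ∫ x in a..b, Real.exp (g x) := by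
    refine intervalIntegral.integral_lt_integral_of_continuousOn_of_le_of_exists_lt hab e1.continuousOn e2.continuousOn ?_ ?_
    · intro x hx
      exact Real.exp_le_exp.mpr (hle x ⟨hx.1.le, hx.2⟩)
    · obtain ⟨x, hx, hx'⟩ := hfat
      exact ⟨x, hx, Real.exp_lt_exp.mpr hx'⟩
  linarith

end OP

end Pool.Agent.Lib.MP_1dedaf_gt.DK
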