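import Pool.Agent.Lib.MP_1dedaf_gt.DK.OP.Opp1
import Pool.Agent.Lib.MP_1dedaf_gt.Mg.G026
import Pool.Agent.Lib.MP_1dedaf_gt.Mg.G003

/-!
# Opposite pairs: from the one-dimensional inequality to column data
-/

set_option autoImplicit false

open MeasureTheory Set Filter Topology

namespace Pool.Agent.Lib.MP_1dedaf_gt.DK

/-- The integral of `B ^ 2 e^{-φ}`. -/
private noncomputable def gR (w : ℝ) (φ : ℝ → ℝ) : ℝ := ∫ x in (0:ℝ)..w, (∫ t in x..w, Real.exp (φ t)) ^ 2 * Real.exp (-φ x)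

private theorem gl_add {φ : ℝ → ℝ} (hφ : Continuous φ) (w x : ℝ) :
    (∫ t in (0:ℝ)..x, Real.exp (φ t)) = (∫ t in (0:ℝ)..w, Real.exp (φ t)) - ∫ t in x..w, Real.exp (φ t) := by
  have hc : Continuous fun t => Real.exp (φ t) := Real.continuous_exp.comp hφ
  rw [← intervalIntegral.integral_add_adjacent_intervals (hc.intervalIntegrable 0 x) (hc.intervalIntegrable x w)]
  ring

private theorem gl_Bc {φ : ℝ → ℝ} (hφ : Continuous φ) (w : ℝ) : Continuous fun x => ∫ t in x..w, Real.exp (φ t) := by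
  have hc : Continuous fun t => Real.exp (φ t) := Real.continuous_exp.comp hφ
  have h1 : Continuous fun x => ∫ t in (0:ℝ)..x, Real.exp (φ t) :=
    intervalIntegral.continuous_primitive (fun a b => hc.intervalIntegrable a b) 0
  have h2 : (fun x => ∫ t in x..w, Real.exp (φ t)) = fun x => (∫ t in (0:ℝ)..w, Real.exp (φ t)) - ∫ t in (0:ℝ)..x, Real.exp (φ t) := by
    funext x; rw [gl_add hφ w x]; ring
  rw [h2]; exact continuous_const.sub h1

private theorem gl_lin {F f1 f2 : ℝ → ℝ} (c1 c2 a b : ℝ) (h1 : Continuous f1) (h2 : Continuous f2) (e : ∀ x, F x = c1 * f1 x + c2 * f2 x) :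
    (∫ x in a..b, F x) = c1 * (∫ x in a..b, f1 x) + c2 * ∫ x in a..b, f2 x := by
  have e1 : (∫ x in a..b, F x) = ∫ x in a..b, (fun y => c1 * f1 y + c2 * f2 y) x := intervalIntegral.integral_congr fun x _ => e x
  rw [e1]
  have e2 := intervalIntegral.integral_add (f := fun y => c1 * f1 y) (g := fun y => c2 * f2 y) (μ := volume) ((continuous_const.mul h1).intervalIntegrable a b)
    ((continuous_const.mul h2).intervalIntegrable a b)
  simp only at e2 ⊢
  rw [e2, intervalIntegral.integral_const_mul, intervalIntegral.integral_const_mul]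

private theorem gl_lin3 {F f1 f2 f3 : ℝ → ℝ} (c1 c2 c3 a b : ℝ) (h1 : Continuous f1) (h2 : Continuous f2) (h3 : Continuous f3)
    (e : ∀ x, F x = c1 * f1 x + c2 * f2 x + c3 * f3 x) :
    (∫ x in a..b, F x) = c1 * (∫ x in a..b, f1 x) + c2 * (∫ x in a..b, f2 x) + c3 * ∫ x in a..b, f3 x := by
  have e1 := gl_lin (F := F) (f1 := fun x => c1 * f1 x + c2 * f2 x) (f2 := f3) 1 c3 a b (by fun_prop) h3 (fun x => by rw [e x]; ring)
  have e2 := gl_lin (F := fun x => c1 * f1 x + c2 * f2 x) (f1 := f1) (f2 := f2) c1 c2 a b h1 h2 (fun x => rfl)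
  rw [e1, e2]; ring

private theorem gl_P {φ : ℝ → ℝ} (hφ : Continuous φ) (w : ℝ) :
    oP w φ = (∫ t in (0:ℝ)..w, Real.exp (φ t)) * oI w φ - oQ w φ := by
  have hB := gl_Bc hφ w
  have he : Continuous fun x => Real.exp (-φ x) := Real.continuous_exp.comp hφ.neg
  unfold oP oI oQ
  rw [gl_lin (f1 := fun x => Real.exp (-φ x)) (f2 := fun x => (∫ t in x..w, Real.exp (φ t)) * Real.exp (-φ x))
    (∫ t in (0:ℝ)..w, Real.exp (φ t)) (-1) 0 w he (hB.mul he) (fun x => by rw [gl_add hφ w x]; ring)]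
  ring

private theorem gl_G {φ : ℝ → ℝ} (hφ : Continuous φ) (w : ℝ) :
    oG w φ = (∫ t in (0:ℝ)..w, Real.exp (φ t)) * oQ w φ - gR w φ := by
  have hB := gl_Bc hφ w
  have he : Continuous fun x => Real.exp (-φ x) := Real.continuous_exp.comp hφ.neg
  unfold oG oQ gR
  rw [gl_lin (f1 := fun x => (∫ t in x..w, Real.exp (φ t)) * Real.exp (-φ x)) (f2 := fun x => (∫ t in x..w, Real.exp (φ t)) ^ 2 * Real.exp (-φ x))
    (∫ t in (0:ℝ)..w, Real.exp (φ t)) (-1) 0 w (hB.mul he) ((hB.pow 2).mul he) (fun x => by rw [gl_add hφ w x]; ring)]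
  ring

/-- The loop quantities in terms of the one-dimensional integrals. -/
private theorem gl_key (K : Dat) (h : K.Reg) :
    (oG K.w (fun x => K.p * x + K.q * K.u x) - oG K.w (fun x => K.p * x + K.q * K.l x)) *
        (oI K.w (fun x => K.p * x + K.q * K.l x) - oI K.w (fun x => K.p * x + K.q * K.u x)) +
      (oP K.w (fun x => K.p * x + K.q * K.l x) - oP K.w (fun x => K.p * x + K.q * K.u x)) *
        (oQ K.w (fun x => K.p * x + K.q * K.l x) - oQ K.w (fun x => K.p * x + K.q * K.u x)) =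
      - (K.N 0 * (K.q * K.M) * K.Phi K.w) := by
  have cl := h.cl
  have cu := h.cu
  have hq := h.hq
  set f : ℝ → ℝ := fun x => K.p * x + K.q * K.l x with hf
  set g : ℝ → ℝ := fun x => K.p * x + K.q * K.u x with hg
  have cf : Continuous f := by fun_prop
  have cg : Continuous g := by fun_prop
  have hBf := gl_Bc cf K.w
  have hBg := gl_Bc cg K.w
  have ef : Continuous fun x => Real.exp (-f x) := Real.continuous_exp.comp cf.neg
  have eg : Continuous fun x => Real.exp (-g x) := Real.continuous_exp.comp cg.neg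
  have pf : Continuous fun x => Real.exp (f x) := Real.continuous_exp.comp cf
  have pg : Continuous fun x => Real.exp (g x) := Real.continuous_exp.comp cg
  set L : ℝ := ∫ t in (0:ℝ)..K.w, Real.exp (f t) with hL
  set U : ℝ := ∫ t in (0:ℝ)..K.w, Real.exp (g t) with hU
  have rf : ∀ x, 1 / K.rl x = Real.exp (-f x) := fun x => by rw [Dat.rl, Real.exp_neg, one_div]
  have rg : ∀ x, 1 / K.ru x = Real.exp (-g x) := fun x => by rw [Dat.ru, Real.exp_neg, one_div]
  have xl : ∀ x, K.Xl x = L - ∫ t in x..K.w, Real.exp (f t) := fun x => gl_add cf K.w x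
  have hmr : ∀ x, K.q * K.mr x = (∫ t in x..K.w, Real.exp (g t)) - ∫ t in x..K.w, Real.exp (f t) := fun x => by
    have h1 : K.mr x = (1 / K.q) * (∫ t in x..K.w, Real.exp (g t)) + (-1 / K.q) * ∫ t in x..K.w, Real.exp (f t) := by
      unfold Dat.mr Dat.mu
      refine gl_lin _ _ _ _ pg pf fun y => ?_
      simp only [Dat.ru, Dat.rl, hf, hg]
      ring
    rw [h1]; field_simp; ring
  have hM : K.q * K.M = U - L := by
    have := hmr 0
    rwa [Dat.mr, ← Dat.M] at this
  have xu : ∀ x, K.Xu x = L - ∫ t in x..K.w, Real.exp (g t) := fun x => by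
    rw [Dat.Xu, xl, hmr]; ring
  have n0 : K.N 0 = oI K.w f - oI K.w g := by
    unfold Dat.N oI
    rw [gl_lin (f1 := fun x => Real.exp (-f x)) (f2 := fun x => Real.exp (-g x)) 1 (-1) 0 K.w ef eg (fun x => by
      simp only [pow_zero, rf, rg]; ring)]
    ring
  have n1 : K.N 1 = L * (oI K.w f - oI K.w g) - (oQ K.w f - oQ K.w g) := by
    have n1' : K.N 1 = 1 * (∫ x in (0:ℝ)..K.w, (L * Real.exp (-f x) + (-1) * ((∫ t in x..K.w, Real.exp (f t)) * Real.exp (-f x)))) +
        (-1) * ∫ x in (0:ℝ)..K.w, (L * Real.exp (-g x) + (-1) * ((∫ t in x..K.w, Real.exp (g t)) * Real.exp (-g x))) := by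
      unfold Dat.N
      refine gl_lin (f1 := fun x => L * Real.exp (-f x) + (-1) * ((∫ t in x..K.w, Real.exp (f t)) * Real.exp (-f x)))
        (f2 := fun x => L * Real.exp (-g x) + (-1) * ((∫ t in x..K.w, Real.exp (g t)) * Real.exp (-g x))) _ _ _ _
        ((continuous_const.mul ef).add (continuous_const.mul (hBf.mul ef))) ((continuous_const.mul eg).add (continuous_const.mul (hBg.mul eg))) fun x => ?_
      simp only [pow_one]
      rw [div_eq_mul_one_div (K.Xl x), div_eq_mul_one_div (K.Xu x), rf, rg, xl, xu]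
      ring
    rw [n1', gl_lin (f1 := fun x => Real.exp (-f x)) (f2 := fun x => (∫ t in x..K.w, Real.exp (f t)) * Real.exp (-f x)) L (-1) 0 K.w ef (hBf.mul ef) (fun x => rfl),
      gl_lin (f1 := fun x => Real.exp (-g x)) (f2 := fun x => (∫ t in x..K.w, Real.exp (g t)) * Real.exp (-g x)) L (-1) 0 K.w eg (hBg.mul eg) (fun x => rfl)]
    unfold oI oQ
    ring
  have n2 : K.N 2 = L ^ 2 * (oI K.w f - oI K.w g) - 2 * L * (oQ K.w f - oQ K.w g) + (gR K.w f - gR K.w g) := by
    have n2' : K.N 2 = 1 * (∫ x in (0:ℝ)..K.w, (L ^ 2 * Real.exp (-f x) + (-(2 * L)) * ((∫ t in x..K.w, Real.exp (f t)) * Real.exp (-f x)) +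
          1 * ((∫ t in x..K.w, Real.exp (f t)) ^ 2 * Real.exp (-f x)))) +
        (-1) * ∫ x in (0:ℝ)..K.w, (L ^ 2 * Real.exp (-g x) + (-(2 * L)) * ((∫ t in x..K.w, Real.exp (g t)) * Real.exp (-g x)) +
          1 * ((∫ t in x..K.w, Real.exp (g t)) ^ 2 * Real.exp (-g x))) := by
      unfold Dat.N
      refine gl_lin (f1 := fun x => L ^ 2 * Real.exp (-f x) + (-(2 * L)) * ((∫ t in x..K.w, Real.exp (f t)) * Real.exp (-f x)) +
          1 * ((∫ t in x..K.w, Real.exp (f t)) ^ 2 * Real.exp (-f x)))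
        (f2 := fun x => L ^ 2 * Real.exp (-g x) + (-(2 * L)) * ((∫ t in x..K.w, Real.exp (g t)) * Real.exp (-g x)) +
          1 * ((∫ t in x..K.w, Real.exp (g t)) ^ 2 * Real.exp (-g x))) _ _ _ _
        (((continuous_const.mul ef).add (continuous_const.mul (hBf.mul ef))).add (continuous_const.mul ((hBf.pow 2).mul ef)))
        (((continuous_const.mul eg).add (continuous_const.mul (hBg.mul eg))).add (continuous_const.mul ((hBg.pow 2).mul eg))) fun x => ?_
      rw [div_eq_mul_one_div (K.Xl x ^ 2), div_eq_mul_one_div (K.Xu x ^ 2), rf, rg, xl, xu]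
      ring
    rw [n2', gl_lin3 (f1 := fun x => Real.exp (-f x)) (f2 := fun x => (∫ t in x..K.w, Real.exp (f t)) * Real.exp (-f x))
        (f3 := fun x => (∫ t in x..K.w, Real.exp (f t)) ^ 2 * Real.exp (-f x)) (L ^ 2) (-(2 * L)) 1 0 K.w ef (hBf.mul ef) ((hBf.pow 2).mul ef) (fun x => rfl),
      gl_lin3 (f1 := fun x => Real.exp (-g x)) (f2 := fun x => (∫ t in x..K.w, Real.exp (g t)) * Real.exp (-g x))
        (f3 := fun x => (∫ t in x..K.w, Real.exp (g t)) ^ 2 * Real.exp (-g x)) (L ^ 2) (-(2 * L)) 1 0 K.w eg (hBg.mul eg) ((hBg.pow 2).mul eg) (fun x => rfl)]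
    unfold oI oQ gR
    ring
  have xi : K.Xi K.w = (K.a - L) * oI K.w f + oQ K.w f := by
    unfold Dat.Xi oI oQ
    rw [gl_lin (f1 := fun x => Real.exp (-f x)) (f2 := fun x => (∫ t in x..K.w, Real.exp (f t)) * Real.exp (-f x)) (K.a - L) 1 0 K.w ef (hBf.mul ef) (fun x => by
      rw [div_eq_mul_one_div, rf, xl]; ring)]
    ring
  have hN : K.N 0 ≠ 0 := Dat.N0_ne K h
  have hMp : K.q * K.M ≠ 0 := mul_ne_zero hq (Dat.M_pos K h).ne'
  have ha : K.a * K.N 0 = K.N 1 := by rw [Dat.a]; field_simp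
  have hphi : K.q * K.M * K.Phi K.w = - (K.N 2 - K.a * K.N 1) - K.q * K.M * K.Xi K.w := by
    have hM0 : K.M ≠ 0 := (Dat.M_pos K h).ne'
    rw [Dat.Phi, Dat.psi, Dat.V]; field_simp
  rw [show K.N 0 * (K.q * K.M) * K.Phi K.w = K.N 0 * (K.q * K.M * K.Phi K.w) by ring, hphi, gl_P cf, gl_P cg, gl_G cf, gl_G cg, ← hL, ← hU]
  rw [show K.N 0 * (-(K.N 2 - K.a * K.N 1) - K.q * K.M * K.Xi K.w) =
    - K.N 0 * K.N 2 + (K.a * K.N 0) * K.N 1 - K.q * K.M * (K.N 0 * K.Xi K.w) by ring, ha]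
  have hx : K.N 0 * K.Xi K.w = (K.N 1 - L * K.N 0) * oI K.w f + K.N 0 * oQ K.w f := by
    rw [xi, ← ha]; ring
  rw [hx, hM, n2, n1, n0]
  ring

/-- `OPP1` without the hypothesis `f w = g w`. -/
def OPP1g : Prop := ∀ (w : ℝ) (f g : ℝ → ℝ), 0 < w → Continuous f → Continuous g → ConvexOn ℝ (Icc 0 w) f → ConcaveOn ℝ (Icc 0 w) g →
  (∀ x ∈ Icc 0 w, f x ≤ g x) → 0 ≤ (oG w g - oG w f) * (oI w f - oI w g) + (oP w f - oP w g) * (oQ w f - oQ w g)

theorem opp_of (h1 : OPP1g) (K : Dat) (h : K.Reg) (vl : ConvexOn ℝ (Icc 0 K.w) K.l) (vu : ConcaveOn ℝ (Icc 0 K.w) K.u) : K.Phi K.w ≤ 0 := by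
  have hk := gl_key K h
  have cl := h.cl
  have cu := h.cu
  have cf : Continuous (fun x => K.p * x + K.q * K.l x) := by fun_prop
  have cg : Continuous (fun x => K.p * x + K.q * K.u x) := by fun_prop
  have hpos : 0 < K.N 0 * (K.q * K.M) := by
    have hD := Dat.D_pos K h
    have hM := Dat.M_pos K h
    have e : K.N 0 = K.q * K.D := by rw [Dat.D]; field_simp [h.hq]
    rw [e]
    have : 0 < K.q ^ 2 := by have := h.hq; positivity
    have h2 : K.q * K.D * (K.q * K.M) = K.q ^ 2 * (K.D * K.M) := by ring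
    rw [h2]; positivity
  have aff : ConvexOn ℝ (Icc 0 K.w) (fun x => K.p * x) := by
    refine ⟨convex_Icc _ _, fun x _ y _ a b _ _ _ => ?_⟩
    simp only [smul_eq_mul]; apply le_of_eq; ring
  have aff' : ConcaveOn ℝ (Icc 0 K.w) (fun x => K.p * x) := by
    refine ⟨convex_Icc _ _, fun x _ y _ a b _ _ _ => ?_⟩
    simp only [smul_eq_mul]; apply le_of_eq; ring
  have key : 0 ≤ - (K.N 0 * (K.q * K.M) * K.Phi K.w) := by
    rw [← hk]
    rcases lt_or_gt_of_ne h.hq with hq | hq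
    · have v1 : ConvexOn ℝ (Icc 0 K.w) (fun x => K.p * x + K.q * K.u x) := by
        refine aff.add ?_
        have := (vu.neg).smul (show 0 ≤ -K.q by linarith)
        refine this.congr fun x _ => ?_
        simp
      have v2 : ConcaveOn ℝ (Icc 0 K.w) (fun x => K.p * x + K.q * K.l x) := by
        refine aff'.add ?_
        have := (vl.neg).smul (show 0 ≤ -K.q by linarith)
        refine this.congr fun x _ => ?_
        simp
      have hle : ∀ x ∈ Icc 0 K.w, K.p * x + K.q * K.u x ≤ K.p * x + K.q * K.l x := fun x hx => by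
        have := h.lu x hx
        nlinarith
      have := h1 K.w _ _ h.hw cg cf v1 v2 hle
      nlinarith [this]
    · have v1 : ConvexOn ℝ (Icc 0 K.w) (fun x => K.p * x + K.q * K.l x) := by
        refine aff.add ?_
        have := vl.smul hq.le
        exact this
      have v2 : ConcaveOn ℝ (Icc 0 K.w) (fun x => K.p * x + K.q * K.u x) := by
        refine aff'.add ?_
        have := vu.smul hq.le
        exact this
      have hle : ∀ x ∈ Icc 0 K.w, K.p * x + K.q * K.l x ≤ K.p * x + K.q * K.u x := fun x hx => by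
        have := h.lu x hx
        nlinarith
      have := h1 K.w _ _ h.hw cf cg v1 v2 hle
      nlinarith [this]
  by_contra hc
  push Not at hc
  have := mul_pos hpos hc
  linarith

open OP in
theorem opp1g : OPP1g := by
  intro w f g hw hf hg cf cg hle
  obtain ⟨H1, b1⟩ := isCompact_Icc.exists_bound_of_continuousOn (s := Icc 0 w) hf.continuousOn
  obtain ⟨H2, b2⟩ := isCompact_Icc.exists_bound_of_continuousOn (s := Icc 0 w) hg.continuousOn
  have bf : ∀ x ∈ Icc 0 w, |f x| ≤ max H1 H2 := fun x hx => (b1 x hx).trans (le_max_left _ _)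
  have bg : ∀ x ∈ Icc 0 w, |g x| ≤ max H1 H2 := fun x hx => (b2 x hx).trans (le_max_right _ _)
  have d0 : ∀ n : ℕ, 0 < w / (n + 2) := fun n => by positivity
  have dw : ∀ n : ℕ, w / (n + 2) < w := fun n => by
    have hn : (0:ℝ) ≤ n := Nat.cast_nonneg n
    rw [div_lt_iff₀ (by positivity)]; nlinarith
  have hδ : Tendsto (fun n : ℕ => w / ((n:ℝ) + 2)) atTop (𝓝[>] 0) := by
    refine tendsto_nhdsWithin_iff.2 ⟨?_, Eventually.of_forall d0⟩
    exact (tendsto_natCast_atTop_atTop.atTop_add tendsto_const_nhds).const_div_atTop w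
  have key : ∀ n : ℕ, 0 ≤ (oG w (sm g w (w / (n + 2))) - oG w (sm f w (w / (n + 2)))) * (oI w (sm f w (w / (n + 2))) - oI w (sm g w (w / (n + 2))))
      + (oP w (sm f w (w / (n + 2))) - oP w (sm g w (w / (n + 2)))) * (oQ w (sm f w (w / (n + 2))) - oQ w (sm g w (w / (n + 2)))) := by
    intro n
    exact opp_smooth hw (sm_deriv hf (d0 n)) (sm_deriv hg (d0 n)) (sm'_cont hf) (sm'_cont hg) (sm_mono cf (d0 n) (dw n)) (sm_anti cg (d0 n) (dw n))
      (fun x hx => sm_le hf hg hle (d0 n) (dw n) hx)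
  have cF : ∀ n : ℕ, Continuous (sm f w (w / (n + 2))) := fun n => continuous_iff_continuousAt.2 fun x => (sm_deriv hf (d0 n) x).continuousAt
  have cG : ∀ n : ℕ, Continuous (sm g w (w / (n + 2))) := fun n => continuous_iff_continuousAt.2 fun x => (sm_deriv hg (d0 n) x).continuousAt
  have bF : ∀ n : ℕ, ∀ x ∈ Icc 0 w, |sm f w (w / (n + 2)) x| ≤ max H1 H2 := fun n x hx => sm_bd hf bf (d0 n) (dw n) hx
  have bG : ∀ n : ℕ, ∀ x ∈ Icc 0 w, |sm g w (w / (n + 2)) x| ≤ max H1 H2 := fun n x hx => sm_bd hg bg (d0 n) (dw n) hx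
  have lF : ∀ x ∈ Icc 0 w, Tendsto (fun n : ℕ => sm f w (w / (n + 2)) x) atTop (𝓝 (f x)) := fun x hx => (sm_lim hf hw hx).comp hδ
  have lG : ∀ x ∈ Icc 0 w, Tendsto (fun n : ℕ => sm g w (w / (n + 2)) x) atTop (𝓝 (g x)) := fun x hx => (sm_lim hg hw hx).comp hδ
  have lim := (((oG_lim hw cG hg bG lG).sub (oG_lim hw cF hf bF lF)).mul ((oI_lim hw cF hf bF lF).sub (oI_lim hw cG hg bG lG))).add
    (((oP_lim hw cF hf bF lF).sub (oP_lim hw cG hg bG lG)).mul ((oQ_lim hw cF hf bF lF).sub (oQ_lim hw cG hg bG lG)))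
  exact ge_of_tendsto' lim key

/-- **The inequality for opposite pairs**, without the hypothesis `l w = u w`. -/
theorem opp_gen (K : Dat) (h : K.Reg) (vl : ConvexOn ℝ (Icc 0 K.w) K.l) (vu : ConcaveOn ℝ (Icc 0 K.w) K.u) : K.Phi K.w ≤ 0 := opp_of opp1g K h vl vu

theorem opp : OPP := fun K h vl vu _ => opp_gen K h vl vu

end Pool.Agent.Lib.MP_1dedaf_gt.DK
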