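import Pool.Agent.Lib.MP_1dedaf_gt.Mg.G029

/-!
# TASK OP B3: elementary facts on `PD`

Proof. `conf`, `cong`: a function with a derivative everywhere is continuous. `chord`: `g - f` is concave on `[a, b]` (`AntitoneOn.concaveOn_of_deriv`: its derivative
is `g' - f'`, antitone), write `x = ((b - x) a + (x - a) b) / (b - a)`. `lt`: let `y` be the point of `fat`; if `x ≤ y` use the chord inequality on `[a, y]`
(or concavity between `a` and `y`), if `y ≤ x` on `[y, b]`; `g - f ≥ 0` at the ends. `sub`: `fat` at the midpoint of `[a', b']` by `lt`.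
`up`: derivative of `f + c` is `f'`. `down`: the same with `f - ε`. `refl`: derivative of `f (-x)` is `-f' (-x)`; `x ∈ [-b, -a]` iff `-x ∈ [a, b]`.
`cvx`: for `s ∈ [0, b - a]`: `f (a + s) - f a = ∫_0^s f' (a + u) du ≤ ∫_0^s f' (b - s + u) du = f b - f (b - s)` (`f'` monotone; or by convexity of `f`),
take `exp`, integrate over `s ∈ [0, b - a]`: `∫_0^{b-a} e^{f (a + s)} ds = mL f a b`, `∫_0^{b-a} e^{-f (b - s)} ds = mI f a b` (`mL_int`, `mI_int`).
-/

set_option autoImplicit false

open MeasureTheory Set Filter Topology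

namespace Pool.Agent.Lib.MP_1dedaf_gt.DK

namespace OP

variable {f g f' g' : ℝ → ℝ} {a b : ℝ}

private theorem B3_conc (h : PD f g f' g' a b) : ConcaveOn ℝ (Icc a b) (fun x => g x - f x) := by
  have hd : ∀ x, HasDerivAt (fun x => g x - f x) (g' x - f' x) x := fun x => (h.dg x).sub (h.df x)
  refine AntitoneOn.concaveOn_of_deriv (convex_Icc a b) ?_ ?_ ?_
  · exact fun x _ => (hd x).continuousAt.continuousWithinAt
  · exact fun x _ => (hd x).differentiableAt.differentiableWithinAt
  · intro x hx y hy hxy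
    have hx' : x ∈ Icc a b := interior_subset hx
    have hy' : y ∈ Icc a b := interior_subset hy
    rw [(hd x).deriv, (hd y).deriv]
    have h1 := h.mf hx' hy' hxy
    have h2 := h.mg hx' hy' hxy
    linarith

private theorem B3_ch {k : ℝ → ℝ} (hk : ConcaveOn ℝ (Icc a b) k) {u v x : ℝ} (hu : u ∈ Icc a b) (hv : v ∈ Icc a b)
    (huv : u < v) (hx : x ∈ Icc u v) : (v - x) * k u + (x - u) * k v ≤ (v - u) * k x := by
  have hpos : 0 < v - u := by linarith
  have hne : v - u ≠ 0 := ne_of_gt hpos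
  have h1 : 0 ≤ (v - x) / (v - u) := div_nonneg (by linarith [hx.2]) hpos.le
  have h2 : 0 ≤ (x - u) / (v - u) := div_nonneg (by linarith [hx.1]) hpos.le
  have h3 : (v - x) / (v - u) + (x - u) / (v - u) = 1 := by
    rw [← add_div, div_eq_one_iff_eq hne]; ring
  have h4 := hk.2 hu hv h1 h2 h3
  simp only [smul_eq_mul] at h4
  have h5 : (v - x) / (v - u) * u + (x - u) / (v - u) * v = x := by
    field_simp
    ring
  rw [h5] at h4
  have h6 := mul_le_mul_of_nonneg_left h4 hpos.le
  have h7 : (v - u) * ((v - x) / (v - u) * k u + (x - u) / (v - u) * k v) = (v - x) * k u + (x - u) * k v := by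
    field_simp
  linarith

theorem PD.conf (h : PD f g f' g' a b) : Continuous f := by
  exact continuous_iff_continuousAt.2 fun x => (h.df x).continuousAt

theorem PD.cong (h : PD f g f' g' a b) : Continuous g := by
  exact continuous_iff_continuousAt.2 fun x => (h.dg x).continuousAt

theorem PD.chord (h : PD f g f' g' a b) {x : ℝ} (hx : x ∈ Icc a b) : (b - x) * (g a - f a) + (x - a) * (g b - f b) ≤ (b - a) * (g x - f x) := by
  exact B3_ch (B3_conc h) ⟨le_refl a, h.ab.le⟩ ⟨h.ab.le, le_refl b⟩ h.ab hx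

theorem PD.lt (h : PD f g f' g' a b) {x : ℝ} (hx : x ∈ Ioo a b) : f x < g x := by
  obtain ⟨y, hy, hfy⟩ := h.fat
  rcases le_total x y with hxy | hxy
  · have hay : a < y := lt_of_lt_of_le hx.1 hxy
    have h1 := B3_ch (B3_conc h) (u := a) (v := y) (x := x) ⟨le_refl a, h.ab.le⟩ hy hay ⟨hx.1.le, hxy⟩
    have h2 : 0 ≤ (y - x) * (g a - f a) := mul_nonneg (by linarith) (by linarith [h.le a ⟨le_refl a, h.ab.le⟩])
    have h3 : 0 < (x - a) * (g y - f y) := mul_pos (by linarith [hx.1]) (by linarith)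
    have h4 : 0 < (y - a) * (g x - f x) := by linarith
    have h5 := (pos_iff_pos_of_mul_pos h4).1 (by linarith)
    linarith
  · have hyb : y < b := lt_of_le_of_lt hxy hx.2
    have h1 := B3_ch (B3_conc h) (u := y) (v := b) (x := x) hy ⟨h.ab.le, le_refl b⟩ hyb ⟨hxy, hx.2.le⟩
    have h2 : 0 ≤ (x - y) * (g b - f b) := mul_nonneg (by linarith) (by linarith [h.le b ⟨h.ab.le, le_refl b⟩])
    have h3 : 0 < (b - x) * (g y - f y) := mul_pos (by linarith [hx.2]) (by linarith)
    have h4 : 0 < (b - y) * (g x - f x) := by linarith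
    have h5 := (pos_iff_pos_of_mul_pos h4).1 (by linarith)
    linarith

theorem PD.sub (h : PD f g f' g' a b) {a' b' : ℝ} (ha : a ≤ a') (hab : a' < b') (hb : b' ≤ b) : PD f g f' g' a' b' := by
  have hs : Icc a' b' ⊆ Icc a b := Icc_subset_Icc ha hb
  refine ⟨hab, h.df, h.dg, h.cf, h.cg, h.mf.mono hs, h.mg.mono hs, fun x hx => h.le x (hs hx), (a' + b') / 2, ⟨by linarith, by linarith⟩, ?_⟩
  exact h.lt ⟨by linarith, by linarith⟩

theorem PD.up (h : PD f g f' g' a b) {c : ℝ} (hle : ∀ x ∈ Icc a b, f x + c ≤ g x) (hfat : ∃ x ∈ Icc a b, f x + c < g x) :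
    PD (fun x => f x + c) g f' g' a b := by
  exact ⟨h.ab, fun x => (h.df x).add_const c, h.dg, h.cf, h.cg, h.mf, h.mg, hle, hfat⟩

theorem PD.down (h : PD f g f' g' a b) {ε : ℝ} (hε : 0 < ε) : PD (fun x => f x - ε) g f' g' a b := by
  refine ⟨h.ab, fun x => (h.df x).sub_const ε, h.dg, h.cf, h.cg, h.mf, h.mg, ?_, a, ⟨le_refl a, h.ab.le⟩, ?_⟩
  · intro x hx
    have := h.le x hx
    show f x - ε ≤ g x
    linarith
  · have := h.le a ⟨le_refl a, h.ab.le⟩
    show f a - ε < g a
    linarith

theorem PD.refl (h : PD f g f' g' a b) : PD (fun x => f (-x)) (fun x => g (-x)) (fun x => -f' (-x)) (fun x => -g' (-x)) (-b) (-a) := by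
  have hm : ∀ x, x ∈ Icc (-b) (-a) → -x ∈ Icc a b := fun x hx => ⟨by linarith [hx.2], by linarith [hx.1]⟩
  refine ⟨by linarith [h.ab], ?_, ?_, ?_, ?_, ?_, ?_, ?_, ?_⟩
  · intro x
    have h1 := (h.df (-x)).comp x (hasDerivAt_neg x)
    have h2 : f' (-x) * -1 = -f' (-x) := by ring
    rw [h2] at h1
    exact h1
  · intro x
    have h1 := (h.dg (-x)).comp x (hasDerivAt_neg x)
    have h2 : g' (-x) * -1 = -g' (-x) := by ring
    rw [h2] at h1
    exact h1
  · exact (h.cf.comp continuous_neg).neg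
  · exact (h.cg.comp continuous_neg).neg
  · intro x hx y hy hxy
    have := h.mf (hm y hy) (hm x hx) (by linarith)
    show -f' (-x) ≤ -f' (-y)
    linarith
  · intro x hx y hy hxy
    have := h.mg (hm y hy) (hm x hx) (by linarith)
    show -g' (-y) ≤ -g' (-x)
    linarith
  · intro x hx
    exact h.le (-x) (hm x hx)
  · obtain ⟨x, hx, hfx⟩ := h.fat
    refine ⟨-x, ⟨by linarith [hx.2], by linarith [hx.1]⟩, ?_⟩
    show f (- -x) < g (- -x)
    rw [neg_neg]
    exact hfx

private theorem B3_conv (h : PD f g f' g' a b) : ConcaveOn ℝ (Icc a b) (fun x => -f x) := by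
  have hd : ∀ x, HasDerivAt (fun x => -f x) (-f' x) x := fun x => (h.df x).neg
  refine AntitoneOn.concaveOn_of_deriv (convex_Icc a b) ?_ ?_ ?_
  · exact fun x _ => (hd x).continuousAt.continuousWithinAt
  · exact fun x _ => (hd x).differentiableAt.differentiableWithinAt
  · intro x hx y hy hxy
    have hx' : x ∈ Icc a b := interior_subset hx
    have hy' : y ∈ Icc a b := interior_subset hy
    rw [(hd x).deriv, (hd y).deriv]
    have h1 := h.mf hx' hy' hxy
    linarith

theorem PD.cvx (h : PD f g f' g' a b) : mL f a b * Real.exp (-f a) ≤ Real.exp (f b) * mI f a b := by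
  have hc := h.conf
  have hab := h.ab
  have ha : a ∈ Icc a b := ⟨le_refl a, h.ab.le⟩
  have hb : b ∈ Icc a b := ⟨h.ab.le, le_refl b⟩
  rw [mL_int hc, mI_int hc]
  have e1 : (∫ x in a..b, Real.exp (-f x)) = ∫ x in a..b, Real.exp (-f (a + b - x)) := by
    rw [intervalIntegral.integral_comp_sub_left (fun x => Real.exp (-f x)) (a + b)]
    congr 1 <;> ring
  rw [e1, ← intervalIntegral.integral_mul_const, ← intervalIntegral.integral_const_mul]
  have hc2 : Continuous fun x => f (a + b - x) := hc.comp (continuous_const.sub continuous_id)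
  refine intervalIntegral.integral_mono_on hab.le ?_ ?_ ?_
  · exact ((Real.continuous_exp.comp hc).mul continuous_const).intervalIntegrable a b
  · exact (continuous_const.mul (Real.continuous_exp.comp hc2.neg)).intervalIntegrable a b
  · intro x hx
    rw [← Real.exp_add, ← Real.exp_add]
    apply Real.exp_le_exp.2
    have hx2 : a + b - x ∈ Icc a b := ⟨by linarith [hx.2], by linarith [hx.1]⟩
    have h1 := B3_ch (B3_conv h) ha hb hab hx
    have h2 := B3_ch (B3_conv h) ha hb hab hx2
    have h3 : (b - a) * (f x + f (a + b - x)) ≤ (b - a) * (f a + f b) := by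
      nlinarith [h1, h2]
    have h4 : f x + f (a + b - x) ≤ f a + f b := le_of_mul_le_mul_left h3 (by linarith)
    linarith

end OP

end Pool.Agent.Lib.MP_1dedaf_gt.DK
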