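import Pool.Agent.Lib.MP_1dedaf_gt.Mg.G029

/-!
# OP C1: the vertical cut formula
-/

set_option autoImplicit false

open MeasureTheory Set Filter Topology

namespace Pool.Agent.Lib.MP_1dedaf_gt.DK

namespace OP

private theorem cut_alg {If1 If2 Ig1 Ig2 Pf1 Pf2 Pg1 Pg2 Qf1 Qf2 Qg1 Qg2 Gf1 Gf2 Gg1 Gg2 Lf1 Lf2 Lg1 Lg2 : ℝ}
    (h1 : If1 - Ig1 ≠ 0) (h2 : If2 - Ig2 ≠ 0) (h : (If1 + If2) - (Ig1 + Ig2) ≠ 0) :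
    (Gg1 + Gg2 + Lg2 * Pg1 + Lg1 * Qg2) - (Gf1 + Gf2 + Lf2 * Pf1 + Lf1 * Qf2)
      + ((Pf1 + Pf2 + Lf1 * If2) - (Pg1 + Pg2 + Lg1 * Ig2)) * ((Qf1 + Qf2 + Lf2 * If1) - (Qg1 + Qg2 + Lg2 * Ig1)) / ((If1 + If2) - (Ig1 + Ig2))
    = (Gg1 - Gf1 + (Pf1 - Pg1) * (Qf1 - Qg1) / (If1 - Ig1)) + (Gg2 - Gf2 + (Pf2 - Pg2) * (Qf2 - Qg2) / (If2 - Ig2))
      + (Lg2 - Lf2) * (Pf1 - (Pf1 - Pg1) / (If1 - Ig1) * If1) + (Lg1 - Lf1) * (Qf2 - (Qf2 - Qg2) / (If2 - Ig2) * If2)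
      + ((If1 + If2) - (Ig1 + Ig2)) * (((Pf1 + Pf2 + Lf1 * If2) - (Pg1 + Pg2 + Lg1 * Ig2)) / ((If1 + If2) - (Ig1 + Ig2)) - (Pf1 - Pg1) / (If1 - Ig1)) *
        (((Qf1 + Qf2 + Lf2 * If1) - (Qg1 + Qg2 + Lg2 * Ig1)) / ((If1 + If2) - (Ig1 + Ig2)) - (Qf2 - Qg2) / (If2 - Ig2)) := by
  set D1 := If1 - Ig1 with hD1
  set D2 := If2 - Ig2 with hD2
  have hD : (If1 + If2) - (Ig1 + Ig2) = D1 + D2 := by simp only [hD1, hD2]; ring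
  rw [hD] at h ⊢
  field_simp
  have e1 : If1 = D1 + Ig1 := by simp only [hD1]; ring
  have e2 : If2 = D2 + Ig2 := by simp only [hD2]; ring
  rw [e1, e2]
  ring

theorem cut (f g : ℝ → ℝ) (a v b : ℝ) (h1 : dD f g a v ≠ 0) (h2 : dD f g v b ≠ 0) (h : dD f g a b ≠ 0) :
    dJ f g a b = dJ f g a v + dJ f g v b + dM f g v b * Xi' f g a v + dM f g a v * Xi f g v b +
      dD f g a b * (al f g a b - al f g a v) * (be f g a b - be f g v b) := by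
  unfold dJ al be Xi Xi' al be dM dD at *
  rw [mI_cat f a v b, mI_cat g a v b] at h ⊢
  rw [mG_cat g a v b, mG_cat f a v b, mP_cat f a v b, mP_cat g a v b, mQ_cat f a v b, mQ_cat g a v b]
  exact cut_alg h1 h2 h

end OP

end Pool.Agent.Lib.MP_1dedaf_gt.DK
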