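import Pool.Agent.Lib.MP_1dedaf_gt.Mg.G032
import Pool.Agent.Lib.MP_1dedaf_gt.Mg.G029
import Pool.Agent.Lib.MP_1dedaf_gt.Mg.G021

/-!
# OP: the inequality for opposite pairs
-/

set_option autoImplicit false

open MeasureTheory Set Filter Topology

namespace Pool.Agent.Lib.MP_1dedaf_gt.DK

namespace OP

variable {f g : ℝ → ℝ} {w : ℝ}

private theorem int_congr (h : ∀ x ∈ Icc 0 w, f x = g x) {x y : ℝ} (hx : 0 ≤ x) (hxy : x ≤ y) (hy : y ≤ w) :
    ∫ t in x..y, Real.exp (f t) = ∫ t in x..y, Real.exp (g t) := by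
  refine intervalIntegral.integral_congr fun t ht => ?_
  rw [uIcc_of_le hxy] at ht
  simp only [h t ⟨hx.trans ht.1, ht.2.trans hy⟩]

theorem oI_congr (hw : 0 < w) (h : ∀ x ∈ Icc 0 w, f x = g x) : oI w f = oI w g := by
  refine intervalIntegral.integral_congr fun t ht => ?_
  rw [uIcc_of_le hw.le] at ht
  simp only [h t ht]

theorem oP_congr (hw : 0 < w) (h : ∀ x ∈ Icc 0 w, f x = g x) : oP w f = oP w g := by
  refine intervalIntegral.integral_congr fun t ht => ?_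
  rw [uIcc_of_le hw.le] at ht
  simp only [h t ht, int_congr h le_rfl ht.1 ht.2]

theorem oQ_congr (hw : 0 < w) (h : ∀ x ∈ Icc 0 w, f x = g x) : oQ w f = oQ w g := by
  refine intervalIntegral.integral_congr fun t ht => ?_
  rw [uIcc_of_le hw.le] at ht
  simp only [h t ht, int_congr h ht.1 ht.2 le_rfl]

theorem oG_congr (hw : 0 < w) (h : ∀ x ∈ Icc 0 w, f x = g x) : oG w f = oG w g := by
  refine intervalIntegral.integral_congr fun t ht => ?_
  rw [uIcc_of_le hw.le] at ht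
  simp only [h t ht, int_congr h ht.1 ht.2 le_rfl, int_congr h le_rfl ht.1 ht.2]

theorem opp_smooth {f' g' : ℝ → ℝ} (hw : 0 < w) (df : ∀ x, HasDerivAt f (f' x) x) (dg : ∀ x, HasDerivAt g (g' x) x) (cf : Continuous f')
    (cg : Continuous g') (mf : MonotoneOn f' (Icc 0 w)) (mg : AntitoneOn g' (Icc 0 w)) (hle : ∀ x ∈ Icc 0 w, f x ≤ g x) :
    0 ≤ (oG w g - oG w f) * (oI w f - oI w g) + (oP w f - oP w g) * (oQ w f - oQ w g) := by
  by_cases hfat : ∃ x ∈ Icc 0 w, f x < g x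
  · have h : PD f g f' g' 0 w := ⟨hw, df, dg, cf, cg, mf, mg, hle, hfat⟩
    have hJ := dJ_nonneg h
    have hD := h.D_pos
    have e : (oG w g - oG w f) * (oI w f - oI w g) + (oP w f - oP w g) * (oQ w f - oQ w g) = dJ f g 0 w * dD f g 0 w := by
      rw [oG_eq w f h.conf, oG_eq w g h.cong, oI_eq, oI_eq, oP_eq, oP_eq, oQ_eq w f h.conf, oQ_eq w g h.cong]
      unfold dJ
      rw [add_mul, div_mul_cancel₀ _ hD.ne']
      rfl
    rw [e]
    exact mul_nonneg hJ hD.le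
  · push Not at hfat
    have h : ∀ x ∈ Icc 0 w, f x = g x := fun x hx => le_antisymm (hle x hx) (hfat x hx)
    rw [oG_congr hw h, oI_congr hw h, oP_congr hw h, oQ_congr hw h]
    simp

end OP

open OP

/-- **The inequality for opposite pairs.** -/
theorem opp1 : OPP1 := by
  intro w f g hw hf hg cf cg hle _
  obtain ⟨H1, b1⟩ := isCompact_Icc.exists_bound_of_continuousOn (s := Icc 0 w) hf.continuousOn
  obtain ⟨H2, b2⟩ := isCompact_Icc.exists_bound_of_continuousOn (s := Icc 0 w) hg.continuousOn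
  have bf : ∀ x ∈ Icc 0 w, |f x| ≤ max H1 H2 := fun x hx => (b1 x hx).trans (le_max_left _ _)
  have bg : ∀ x ∈ Icc 0 w, |g x| ≤ max H1 H2 := fun x hx => (b2 x hx).trans (le_max_right _ _)
  have d0 : ∀ n : ℕ, 0 < w / (n + 2) := fun n => by positivity
  have dw : ∀ n : ℕ, w / (n + 2) < w := fun n => by
    have hn : (0:ℝ) ≤ n := Nat.cast_nonneg n
    rw [div_lt_iff₀ (by positivity)]; nlinarith
  have hδ : Tendsto (fun n : ℕ => w / ((n:ℝ) + 2)) atTop (𝓝[>] 0) := by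
    refine tendsto_nhdsWithin_iff.2 ⟨?_, Eventually.of_forall d0⟩
    exact (tendsto_natCast_atTop_atTop.atTop_add tendsto_const_nhds).const_div_atTop w
  have key : ∀ n : ℕ, 0 ≤ (oG w (sm g w (w / (n + 2))) - oG w (sm f w (w / (n + 2)))) * (oI w (sm f w (w / (n + 2))) - oI w (sm g w (w / (n + 2))))
      + (oP w (sm f w (w / (n + 2))) - oP w (sm g w (w / (n + 2)))) * (oQ w (sm f w (w / (n + 2))) - oQ w (sm g w (w / (n + 2)))) := by
    intro n
    exact opp_smooth hw (sm_deriv hf (d0 n)) (sm_deriv hg (d0 n)) (sm'_cont hf) (sm'_cont hg) (sm_mono cf (d0 n) (dw n)) (sm_anti cg (d0 n) (dw n))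
      (fun x hx => sm_le hf hg hle (d0 n) (dw n) hx)
  have cF : ∀ n : ℕ, Continuous (sm f w (w / (n + 2))) := fun n => continuous_iff_continuousAt.2 fun x => (sm_deriv hf (d0 n) x).continuousAt
  have cG : ∀ n : ℕ, Continuous (sm g w (w / (n + 2))) := fun n => continuous_iff_continuousAt.2 fun x => (sm_deriv hg (d0 n) x).continuousAt
  have bF : ∀ n : ℕ, ∀ x ∈ Icc 0 w, |sm f w (w / (n + 2)) x| ≤ max H1 H2 := fun n x hx => sm_bd hf bf (d0 n) (dw n) hx
  have bG : ∀ n : ℕ, ∀ x ∈ Icc 0 w, |sm g w (w / (n + 2)) x| ≤ max H1 H2 := fun n x hx => sm_bd hg bg (d0 n) (dw n) hx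
  have lF : ∀ x ∈ Icc 0 w, Tendsto (fun n : ℕ => sm f w (w / (n + 2)) x) atTop (𝓝 (f x)) := fun x hx => (sm_lim hf hw hx).comp hδ
  have lG : ∀ x ∈ Icc 0 w, Tendsto (fun n : ℕ => sm g w (w / (n + 2)) x) atTop (𝓝 (g x)) := fun x hx => (sm_lim hg hw hx).comp hδ
  have lim := (((oG_lim hw cG hg bG lG).sub (oG_lim hw cF hf bF lF)).mul ((oI_lim hw cF hf bF lF).sub (oI_lim hw cG hg bG lG))).add
    (((oP_lim hw cF hf bF lF).sub (oP_lim hw cG hg bG lG)).mul ((oQ_lim hw cF hf bF lF).sub (oQ_lim hw cG hg bG lG)))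
  exact ge_of_tendsto' lim key

end Pool.Agent.Lib.MP_1dedaf_gt.DK
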