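import Pool.Agent.Lib.MP_1dedaf_gt.Mg.G031

/-!
# TASK OP Q1: existence of the minimum

Proof. Let `H` bound `|f|, |g|` on `[a, b]` (compactness; `H ≥ 0`), `C = 3 e^{6H}`, `r0 = -dJ f g a b / (b - a) > 0`, `δ = r0 / C`. For `(x, y, c)` put
`D (x, y, c) = e^{-c} mI f x y - mI g x y = dD (f + c) g x y` (`mI_up`), continuous. The set
`S = {(x, y, c) | a ≤ x, x ≤ y, y ≤ b, 0 ≤ c, c ≤ g x - f x, c ≤ g y - f y, δ ≤ (y - x) * D (x, y, c)}` is closed and bounded (`c ≤ 2H`), so compact; on it `x < y` and `D > 0`.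
It contains `(a, b, 0)`: `K1_J` gives `r0 (b - a) = |dJ| ≤ C (b - a)² D`. The function `r = dJ (f + c) g x y / (y - x)` is continuous on `S` (write it with `*_up`:
`dJ (f + c) g x y = mG g - e^c mG f + (mP f - mP g) (mQ f - mQ g) / D`; the `m* φ x y` are continuous in `(x, y)`). Let `(a', b', c)` be a minimum point, `-m` the
minimum; `-m ≤ -r0 < 0`. `PD (f + c) g` on `[a', b']`: `PD.sub`, then `PD.up`; `f + c ≤ g` on `[a', b']` by `PD.chord` (on `[a', b']`), and `f + c < g` somewhere as `D > 0`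
(otherwise `f + c = g` on `[a', b']` and `D = 0`). For `Mn`: let `(x, y, e)` be as in `Mn` for `(f + c, g, a', b')`; put `c' = c + e`: `(x, y, c')` satisfies the first six
conditions of `S` (`Icc` endpoints). If `δ ≤ (y - x) D (x, y, c')` it is in `S` and `dJ ≥ -m (y - x)`. Otherwise by `K1_J` (with the pair `f + c', g` on `[x, y]`:
`-H ≤ f ≤ f + c' ≤ g ≤ H`) `dJ ≥ -C (y - x)² D ≥ -C δ (y - x) = -r0 (y - x) ≥ -m (y - x)`. (`(f + c) + e = f + (c + e)` by `add_assoc`.)
-/

set_option autoImplicit false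

open MeasureTheory Set Filter Topology

namespace Pool.Agent.Lib.MP_1dedaf_gt.DK

namespace OP

variable {f g f' g' : ℝ → ℝ} {a b : ℝ}

private theorem Q1_cI {φ : ℝ → ℝ} (h : Continuous φ) : Continuous (cI φ) :=
  continuous_iff_continuousAt.2 fun x => (cI_deriv h x).continuousAt

private theorem Q1_cP {φ : ℝ → ℝ} (h : Continuous φ) : Continuous (cP φ) :=
  continuous_iff_continuousAt.2 fun x => (cP_deriv h x).continuousAt

private theorem Q1_cS {φ : ℝ → ℝ} (h : Continuous φ) : Continuous (cS φ) :=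
  continuous_iff_continuousAt.2 fun x => (cS_deriv h x).continuousAt

private theorem Q1_mI {φ : ℝ → ℝ} (h : Continuous φ) :
    Continuous fun p : ℝ × ℝ × ℝ => mI φ p.1 p.2.1 := by
  have h1 := Q1_cI h
  unfold mI
  fun_prop

private theorem Q1_mP {φ : ℝ → ℝ} (h : Continuous φ) :
    Continuous fun p : ℝ × ℝ × ℝ => mP φ p.1 p.2.1 := by
  have h1 := Q1_cI h
  have h2 := Q1_cP h
  have h3 := cA_cont h
  unfold mP mI
  fun_prop

private theorem Q1_mQ {φ : ℝ → ℝ} (h : Continuous φ) :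
    Continuous fun p : ℝ × ℝ × ℝ => mQ φ p.1 p.2.1 := by
  have h1 := Q1_cI h
  have h2 := Q1_cP h
  have h3 := cA_cont h
  unfold mQ mI
  fun_prop

private theorem Q1_mG {φ : ℝ → ℝ} (h : Continuous φ) :
    Continuous fun p : ℝ × ℝ × ℝ => mG φ p.1 p.2.1 := by
  have h1 := Q1_cI h
  have h2 := Q1_cP h
  have h3 := cA_cont h
  have h4 := Q1_cS h
  unfold mG mI
  fun_prop

private theorem Q1_dD {f g : ℝ → ℝ} (hf : Continuous f) (c x y : ℝ) :
    dD (fun t => f t + c) g x y = Real.exp (-c) * mI f x y - mI g x y := by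
  unfold dD
  rw [mI_up hf]

private theorem Q1_dJ {f g : ℝ → ℝ} (hf : Continuous f) (c x y : ℝ) :
    dJ (fun t => f t + c) g x y = mG g x y - Real.exp c * mG f x y +
      (mP f x y - mP g x y) * (mQ f x y - mQ g x y) / (Real.exp (-c) * mI f x y - mI g x y) := by
  unfold dJ
  rw [Q1_dD hf, mG_up hf, mP_up hf, mQ_up hf]

theorem exists_min (h : PD f g f' g' a b) (hJ : dJ f g a b < 0) :
    ∃ a' b' c m, 0 < m ∧ PD (fun x => f x + c) g f' g' a' b' ∧ Mn (fun x => f x + c) g a' b' m := by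
  have hab := h.ab
  have hf := h.conf
  have hg := h.cong
  obtain ⟨C1, hC1⟩ := isCompact_Icc.exists_bound_of_continuousOn (s := Icc a b) hf.continuousOn
  obtain ⟨C2, hC2⟩ := isCompact_Icc.exists_bound_of_continuousOn (s := Icc a b) hg.continuousOn
  obtain ⟨H, hHf, hHg⟩ : ∃ H : ℝ, (∀ x ∈ Icc a b, |f x| ≤ H) ∧ (∀ x ∈ Icc a b, |g x| ≤ H) :=
    ⟨max C1 C2, fun x hx => (hC1 x hx).trans (le_max_left _ _),
      fun x hx => (hC2 x hx).trans (le_max_right _ _)⟩
  obtain ⟨C, hC⟩ : ∃ C : ℝ, C = 3 * Real.exp (6 * H) := ⟨_, rfl⟩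
  have hC0 : 0 < C := by rw [hC]; positivity
  obtain ⟨r0, hr0⟩ : ∃ r0 : ℝ, r0 = -dJ f g a b / (b - a) := ⟨_, rfl⟩
  have hba : 0 < b - a := sub_pos.2 hab
  have hr0p : 0 < r0 := by
    rw [hr0]
    exact div_pos (neg_pos.2 hJ) hba
  obtain ⟨δ, hδ⟩ : ∃ δ : ℝ, δ = r0 / C := ⟨_, rfl⟩
  have hδp : 0 < δ := by rw [hδ]; exact div_pos hr0p hC0
  have hδC : C * δ = r0 := by rw [hδ]; field_simp
  let Dd : ℝ × ℝ × ℝ → ℝ := fun p => Real.exp (-p.2.2) * mI f p.1 p.2.1 - mI g p.1 p.2.1
  let F : ℝ × ℝ × ℝ → ℝ := fun p => mG g p.1 p.2.1 - Real.exp p.2.2 * mG f p.1 p.2.1 +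
    (mP f p.1 p.2.1 - mP g p.1 p.2.1) * (mQ f p.1 p.2.1 - mQ g p.1 p.2.1) / Dd p
  have hDc : Continuous Dd := by
    have h1 := Q1_mI hf
    have h2 := Q1_mI hg
    show Continuous fun p : ℝ × ℝ × ℝ => Real.exp (-p.2.2) * mI f p.1 p.2.1 - mI g p.1 p.2.1
    exact ((Real.continuous_exp.comp (continuous_neg.comp (continuous_snd.comp
      continuous_snd))).mul h1).sub h2
  let S : Set (ℝ × ℝ × ℝ) := {p | a ≤ p.1 ∧ p.1 ≤ p.2.1 ∧ p.2.1 ≤ b ∧ 0 ≤ p.2.2 ∧
    p.2.2 ≤ g p.1 - f p.1 ∧ p.2.2 ≤ g p.2.1 - f p.2.1 ∧ δ ≤ (p.2.1 - p.1) * Dd p}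
  have hSc : IsClosed S := by
    have e1 : IsClosed {p : ℝ × ℝ × ℝ | a ≤ p.1} := isClosed_le continuous_const continuous_fst
    have e2 : IsClosed {p : ℝ × ℝ × ℝ | p.1 ≤ p.2.1} :=
      isClosed_le continuous_fst (continuous_fst.comp continuous_snd)
    have e3 : IsClosed {p : ℝ × ℝ × ℝ | p.2.1 ≤ b} :=
      isClosed_le (continuous_fst.comp continuous_snd) continuous_const
    have e4 : IsClosed {p : ℝ × ℝ × ℝ | 0 ≤ p.2.2} :=
      isClosed_le continuous_const (continuous_snd.comp continuous_snd)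
    have e5 : IsClosed {p : ℝ × ℝ × ℝ | p.2.2 ≤ g p.1 - f p.1} :=
      isClosed_le (continuous_snd.comp continuous_snd)
        ((hg.comp continuous_fst).sub (hf.comp continuous_fst))
    have e6 : IsClosed {p : ℝ × ℝ × ℝ | p.2.2 ≤ g p.2.1 - f p.2.1} :=
      isClosed_le (continuous_snd.comp continuous_snd)
        ((hg.comp (continuous_fst.comp continuous_snd)).sub
          (hf.comp (continuous_fst.comp continuous_snd)))
    have e7 : IsClosed {p : ℝ × ℝ × ℝ | δ ≤ (p.2.1 - p.1) * Dd p} :=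
      isClosed_le continuous_const
        (((continuous_fst.comp continuous_snd).sub continuous_fst).mul hDc)
    have e := e1.inter (e2.inter (e3.inter (e4.inter (e5.inter (e6.inter e7)))))
    exact e
  have hHb : ∀ x ∈ Icc a b, g x - f x ≤ 2 * H := by
    intro x hx
    have h1 := (abs_le.1 (hHf x hx)).1
    have h2 := (abs_le.1 (hHg x hx)).2
    linarith
  have hSb : S ⊆ Icc a b ×ˢ (Icc a b ×ˢ Icc 0 (2 * H)) := by
    rintro ⟨x, y, c⟩ ⟨h1, h2, h3, h4, h5, -, -⟩
    dsimp only at h1 h2 h3 h4 h5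
    have hx : x ∈ Icc a b := ⟨h1, h2.trans h3⟩
    exact ⟨hx, ⟨h1.trans h2, h3⟩, h4, h5.trans (hHb x hx)⟩
  have hScomp : IsCompact S :=
    (isCompact_Icc.prod (isCompact_Icc.prod isCompact_Icc)).of_isClosed_subset hSc hSb
  have hSpos : ∀ p ∈ S, 0 < p.2.1 - p.1 ∧ 0 < Dd p := by
    rintro p ⟨-, h2, -, -, -, -, h7⟩
    have h8 : 0 < (p.2.1 - p.1) * Dd p := hδp.trans_le h7
    have h9 : 0 ≤ p.2.1 - p.1 := sub_nonneg.2 h2
    have h10 : 0 < p.2.1 - p.1 := by
      rcases h9.lt_or_eq with h10 | h10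
      · exact h10
      · rw [← h10, zero_mul] at h8
        exact absurd h8 (lt_irrefl _)
    exact ⟨h10, (mul_pos_iff_of_pos_left h10).1 h8⟩
  have hrc : ContinuousOn (fun p => F p / (p.2.1 - p.1)) S := by
    refine ContinuousOn.div ?_ ?_ fun p hp => (hSpos p hp).1.ne'
    · refine ContinuousOn.add ?_ (ContinuousOn.div ?_ hDc.continuousOn
        fun p hp => (hSpos p hp).2.ne')
      · exact ((Q1_mG hg).sub ((Real.continuous_exp.comp (continuous_snd.comp
          continuous_snd)).mul (Q1_mG hf))).continuousOn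
      · exact (((Q1_mP hf).sub (Q1_mP hg)).mul ((Q1_mQ hf).sub (Q1_mQ hg))).continuousOn
    · exact ((continuous_fst.comp continuous_snd).sub continuous_fst).continuousOn
  have hF : ∀ x y c, F (x, y, c) = dJ (fun t => f t + c) g x y := fun x y c =>
    (Q1_dJ hf c x y).symm
  have hD : ∀ x y c, Dd (x, y, c) = dD (fun t => f t + c) g x y := fun x y c =>
    (Q1_dD hf c x y).symm
  have hzero : (fun t => f t + 0) = f := by
    funext t
    rw [add_zero]
  have hle := h.le
  have haI : a ∈ Icc a b := ⟨le_rfl, hab.le⟩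
  have hbI : b ∈ Icc a b := ⟨hab.le, le_rfl⟩
  have hmem : (a, b, (0:ℝ)) ∈ S := by
    refine ⟨le_rfl, hab.le, le_rfl, le_rfl, sub_nonneg.2 (hle a haI), sub_nonneg.2 (hle b hbI), ?_⟩
    show δ ≤ (b - a) * Dd (a, b, 0)
    rw [hD, hzero]
    have h1 := K1_J hf hg hab.le hle hHf hHg
    rw [← hC] at h1
    have h2 : r0 * (b - a) = -dJ f g a b := by
      rw [hr0]
      field_simp
    have h3 : -dJ f g a b ≤ C * (b - a) ^ 2 * dD f g a b := (neg_le_abs _).trans h1
    have h4 : (b - a) * (C * δ) ≤ (b - a) * (C * ((b - a) * dD f g a b)) := by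
      rw [hδC]
      linarith [h3, h2]
    exact le_of_mul_le_mul_left (le_of_mul_le_mul_left h4 hba) hC0
  obtain ⟨⟨a', b', c⟩, hp, hmin⟩ := hScomp.exists_isMinOn ⟨_, hmem⟩ hrc
  have hp' := hp
  obtain ⟨h1, h2, h3, h4, h5, h6, h7⟩ := hp'
  dsimp only at h1 h2 h3 h4 h5 h6
  obtain ⟨hpos1, hpos2⟩ := hSpos _ hp
  dsimp only at hpos1
  have hab' : a' < b' := sub_pos.1 hpos1
  have hsub := h.sub h1 hab' h3
  have hle' : ∀ x ∈ Icc a' b', f x + c ≤ g x := by
    intro x hx
    have h8 := hsub.chord hx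
    have h9 : (b' - x) * c ≤ (b' - x) * (g a' - f a') :=
      mul_le_mul_of_nonneg_left h5 (sub_nonneg.2 hx.2)
    have h10 : (x - a') * c ≤ (x - a') * (g b' - f b') :=
      mul_le_mul_of_nonneg_left h6 (sub_nonneg.2 hx.1)
    have h11 : (b' - a') * c ≤ (b' - a') * (g x - f x) := by nlinarith
    have h12 := le_of_mul_le_mul_left h11 hpos1
    linarith
  have hfat' : ∃ x ∈ Icc a' b', f x + c < g x := by
    by_contra hcon
    push Not at hcon
    have h8 : dD (fun t => f t + c) g a' b' = 0 := by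
      unfold dD
      rw [mI_int (by fun_prop), mI_int hg, sub_eq_zero]
      refine intervalIntegral.integral_congr fun x hx => ?_
      rw [uIcc_of_le hab'.le] at hx
      show Real.exp (-(f x + c)) = Real.exp (-g x)
      rw [le_antisymm (hle' x hx) (hcon x hx)]
    rw [hD, h8] at hpos2
    exact lt_irrefl _ hpos2
  have hval : F (a', b', c) / (b' - a') ≤ -r0 := by
    have h8 := hmin hmem
    have h9 : F (a', b', c) / (b' - a') ≤ F (a, b, 0) / (b - a) := h8
    rw [hF a b 0, hzero] at h9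
    have h10 : dJ f g a b / (b - a) = -r0 := by
      rw [hr0, neg_div, neg_neg]
    rwa [h10] at h9
  obtain ⟨m, hm⟩ : ∃ m : ℝ, m = -(F (a', b', c) / (b' - a')) := ⟨_, rfl⟩
  have hmr : r0 ≤ m := by rw [hm]; linarith
  refine ⟨a', b', c, m, hr0p.trans_le hmr, hsub.up hle' hfat', ?_, ?_⟩
  · rw [hm, neg_neg, hF]
    field_simp
  · intro x y e hx hxy hy he hle2 hfat2
    have hfun : (fun t => (fun x => f x + c) t + e) = fun t => f t + (c + e) := by
      funext t
      show f t + c + e = f t + (c + e)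
      rw [add_assoc]
    show -m * (y - x) ≤ dJ (fun t => (fun x => f x + c) t + e) g x y
    rw [hfun]
    have hle3 : ∀ t ∈ Icc x y, f t + (c + e) ≤ g t := fun t ht => by
      rw [← add_assoc]
      exact hle2 t ht
    have hyx : 0 < y - x := sub_pos.2 hxy
    have hax : a ≤ x := h1.trans hx
    have hyb : y ≤ b := hy.trans h3
    have hsubI : ∀ t ∈ Icc x y, t ∈ Icc a b := fun t ht => ⟨hax.trans ht.1, ht.2.trans hyb⟩
    by_cases hcase : δ ≤ (y - x) * Dd (x, y, c + e)
    · have hmem2 : (x, y, c + e) ∈ S := by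
        refine ⟨hax, hxy.le, hyb, add_nonneg h4 he, ?_, ?_, hcase⟩
        · have := hle3 x ⟨le_rfl, hxy.le⟩
          show c + e ≤ g x - f x
          linarith
        · have := hle3 y ⟨hxy.le, le_rfl⟩
          show c + e ≤ g y - f y
          linarith
      have h8 : F (a', b', c) / (b' - a') ≤ F (x, y, c + e) / (y - x) := hmin hmem2
      rw [hF x y (c + e)] at h8
      have h9 : -m ≤ dJ (fun t => f t + (c + e)) g x y / (y - x) := by
        rw [hm, neg_neg]
        exact h8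
      exact (le_div_iff₀ hyx).1 h9
    · have hcase' := not_le.1 hcase
      rw [hD] at hcase'
      have hce : 0 ≤ c + e := add_nonneg h4 he
      have hbf : ∀ t ∈ Icc x y, |f t + (c + e)| ≤ H := by
        intro t ht
        have h8 := (abs_le.1 (hHf t (hsubI t ht))).1
        have h9 := (abs_le.1 (hHg t (hsubI t ht))).2
        have h10 := hle3 t ht
        rw [abs_le]
        constructor
        · linarith
        · linarith
      have h8 := K1_J (f := fun t => f t + (c + e)) (g := g) (by fun_prop) hg hxy.le hle3 hbf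
        fun t ht => hHg t (hsubI t ht)
      rw [← hC] at h8
      have h9 := (abs_le.1 h8).1
      have h10 : C * (y - x) ^ 2 * dD (fun t => f t + (c + e)) g x y ≤ m * (y - x) := by
        have h11 : C * (y - x) * ((y - x) * dD (fun t => f t + (c + e)) g x y) ≤
            C * (y - x) * δ :=
          mul_le_mul_of_nonneg_left hcase'.le (mul_pos hC0 hyx).le
        have h12 : r0 * (y - x) ≤ m * (y - x) := mul_le_mul_of_nonneg_right hmr hyx.le
        calc C * (y - x) ^ 2 * dD (fun t => f t + (c + e)) g x y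
            = C * (y - x) * ((y - x) * dD (fun t => f t + (c + e)) g x y) := by ring
          _ ≤ C * (y - x) * δ := h11
          _ = (C * δ) * (y - x) := by ring
          _ = r0 * (y - x) := by rw [hδC]
          _ ≤ m * (y - x) := h12
      linarith

end OP

end Pool.Agent.Lib.MP_1dedaf_gt.DK
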