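import Pool.Agent.Lib.MP_1dedaf_gt.Mg.G031

/-!
# TASK OP R1: the two first order conditions

Proof. `R1`: `g - f` has a positive minimum `κ` on `[a, b]` (`PD.chord`: `g x - f x ≥ min (g a - f a) (g b - f b)`), so for `0 ≤ ε < κ` the pair `(f + ε, g)` on `[a, b]` is in the
family and `ψ ε = dJ (f + ε) g a b ≥ -m (b - a) = ψ 0`. By `*_up`, `ψ ε = mG g - e^ε mG f + (mP f - mP g) (mQ f - mQ g) / (e^{-ε} mI f - mI g)`, with derivative at `0`
`-mG f + (mP f - mP g) (mQ f - mQ g) mI f / dD² = al be mI f - mG f`, which must be `≥ 0`.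
`R2`: `k = (g a - f a) / (b - a)`. For `0 ≤ δ < b - a` the pair `(f + k δ, g)` on `[a, b - δ]` is in the family: `PD.chord` with `f b = g b` gives
`g x - f x ≥ k (b - x) ≥ k δ` for `x ≤ b - δ`, and it is strict at `x = a` for `δ < b - a`. So `ψ δ = dJ (f + k δ) g a (b - δ) ≥ -m (b - δ - a) ≥ ψ 0`, and the derivative of `ψ` at
`0` is `≥ 0`. By `*_up`: `ψ δ = mG g a (b-δ) - e^{kδ} mG f a (b-δ) + (mP f a (b-δ) - mP g a (b-δ)) (mQ f a (b-δ) - mQ g a (b-δ)) / (e^{-kδ} mI f a (b-δ) - mI g a (b-δ))`.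
Derivatives in the right end `y` at `y = b`: `mL' = e^{φ b}`, `mI' = e^{-φ b}`, `mP' = mL e^{-φ b}`, `mQ' = e^{φ b} mI`, `mG' = e^{φ b} mP` (from the definitions and
`cA_deriv` ...). As `f b = g b`, with `E = e^{g b}`: the derivative of `ψ` at `0` is
`-(E (mP g - mP f) + (-(dM / E) (mQ f - mQ g) + (mP f - mP g) E dD) / dD) + k (al be mI f - mG f) = be dM / E + k (al be mI f - mG f)`.
-/

set_option autoImplicit false

open MeasureTheory Set Filter Topology

namespace Pool.Agent.Lib.MP_1dedaf_gt.DK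

namespace OP

variable {f g f' g' : ℝ → ℝ} {a b m : ℝ}

private theorem R1_der {ψ : ℝ → ℝ} {D κ : ℝ} (hd : HasDerivAt ψ D 0) (hκ : 0 < κ) (h : ∀ ε, 0 < ε → ε < κ → ψ 0 ≤ ψ ε) : 0 ≤ D := by
  rw [hasDerivAt_iff_tendsto_slope_zero] at hd
  have h1 : Tendsto (fun t => t⁻¹ • (ψ (0 + t) - ψ 0)) (𝓝[>] 0) (𝓝 D) :=
    hd.mono_left (nhdsWithin_mono _ (fun x (hx : 0 < x) => ne_of_gt hx))
  refine ge_of_tendsto h1 ?_
  filter_upwards [Ioo_mem_nhdsGT hκ] with t ht
  have := h t ht.1 ht.2
  rw [zero_add, smul_eq_mul]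
  exact mul_nonneg (inv_nonneg.2 ht.1.le) (sub_nonneg.2 this)

private theorem R1_up (hf : Continuous f) (c x y : ℝ) : dJ (fun x => f x + c) g x y =
    mG g x y - Real.exp c * mG f x y + (mP f x y - mP g x y) * (mQ f x y - mQ g x y) / (Real.exp (-c) * mI f x y - mI g x y) := by
  rw [dJ, dD, mG_up hf, mP_up hf, mQ_up hf, mI_up hf]

theorem R1 (h : PD f g f' g' a b) (hm : Mn f g a b m) (ha : f a < g a) (hb : f b < g b) :
    0 ≤ al f g a b * be f g a b * mI f a b - mG f a b := by
  have hab := h.ab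
  have hf := h.conf
  have hg := h.cong
  have hD : 0 < dD f g a b := dD_pos' hf hg hab h.le h.fat
  have hκ : 0 < min (g a - f a) (g b - f b) := lt_min (by linarith) (by linarith)
  have hκx : ∀ x ∈ Icc a b, min (g a - f a) (g b - f b) ≤ g x - f x := by
    intro x hx
    have h1 := h.chord hx
    have h2 : (b - x) * min (g a - f a) (g b - f b) ≤ (b - x) * (g a - f a) :=
      mul_le_mul_of_nonneg_left (min_le_left _ _) (by linarith [hx.2])
    have h3 : (x - a) * min (g a - f a) (g b - f b) ≤ (x - a) * (g b - f b) :=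
      mul_le_mul_of_nonneg_left (min_le_right _ _) (by linarith [hx.1])
    have h4 : (b - a) * min (g a - f a) (g b - f b) ≤ (b - a) * (g x - f x) := by nlinarith
    exact le_of_mul_le_mul_left h4 (by linarith)
  have hψ : ∀ ε, 0 < ε → ε < min (g a - f a) (g b - f b) →
      dJ (fun x => f x + 0) g a b ≤ dJ (fun x => f x + ε) g a b := by
    intro ε h0 h1
    have h2 := hm.2 a b ε le_rfl hab le_rfl h0.le (fun x hx => by have := hκx x hx; linarith)
      ⟨a, ⟨le_rfl, hab.le⟩, by have := hκx a ⟨le_rfl, hab.le⟩; linarith⟩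
    rw [← hm.1] at h2
    simpa using h2
  have hd : HasDerivAt (fun ε : ℝ => dJ (fun x => f x + ε) g a b)
      (al f g a b * be f g a b * mI f a b - mG f a b) 0 := by
    have e : (fun ε : ℝ => dJ (fun x => f x + ε) g a b) = fun ε : ℝ =>
      mG g a b - Real.exp ε * mG f a b + (mP f a b - mP g a b) * (mQ f a b - mQ g a b) / (Real.exp (-ε) * mI f a b - mI g a b) := by
      funext ε
      exact R1_up hf ε a b
    rw [e]
    have d1 : HasDerivAt (fun ε : ℝ => Real.exp ε) 1 0 := by simpa using Real.hasDerivAt_exp 0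
    have d2 : HasDerivAt (fun ε : ℝ => Real.exp (-ε)) (-1) 0 := by
      simpa using (hasDerivAt_neg (0:ℝ)).exp
    have d3 : HasDerivAt (fun ε : ℝ => Real.exp (-ε) * mI f a b - mI g a b) (-1 * mI f a b) 0 :=
      (d2.mul_const (mI f a b)).sub_const (mI g a b)
    have hne : Real.exp (-(0:ℝ)) * mI f a b - mI g a b ≠ 0 := by
      rw [neg_zero, Real.exp_zero, one_mul]
      exact hD.ne'
    have d4 := ((d1.mul_const (mG f a b)).const_sub (mG g a b)).add
      (d3.inv hne |>.const_mul ((mP f a b - mP g a b) * (mQ f a b - mQ g a b)))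
    refine (d4.congr_deriv ?_).congr_of_eventuallyEq (Eventually.of_forall fun ε => ?_)
    · simp only [neg_zero, Real.exp_zero, one_mul]
      rw [al, be]
      have : mI f a b - mI g a b = dD f g a b := rfl
      rw [this]
      have hD' := hD.ne'
      field_simp
      ring
    · simp only [Pi.add_apply]
      rw [div_eq_mul_inv]
      rfl
  have hd' : HasDerivAt (fun ε : ℝ => dJ (fun x => f x + ε) g a b)
      (al f g a b * be f g a b * mI f a b - mG f a b) 0 := hd
  exact R1_der hd' hκ hψ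

private theorem R1_dL (hf : Continuous f) (a y : ℝ) : HasDerivAt (fun y => mL f a y) (Real.exp (f y)) y := by
  simpa [mL] using (cA_deriv hf y).sub_const (cA f a)

private theorem R1_dI (hf : Continuous f) (a y : ℝ) : HasDerivAt (fun y => mI f a y) (Real.exp (-f y)) y := by
  simpa [mI] using (cI_deriv hf y).sub_const (cI f a)

private theorem R1_dP (hf : Continuous f) (a y : ℝ) : HasDerivAt (fun y => mP f a y) (mL f a y * Real.exp (-f y)) y := by
  have h := ((cP_deriv hf y).sub_const (cP f a)).sub ((R1_dI hf a y).const_mul (cA f a))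
  refine (h.congr_deriv ?_).congr_of_eventuallyEq (Eventually.of_forall fun ε => ?_)
  · rw [mL]; ring
  · simp [mP]

private theorem R1_dQ (hf : Continuous f) (a y : ℝ) : HasDerivAt (fun y => mQ f a y) (Real.exp (f y) * mI f a y) y := by
  have h := ((cA_deriv hf y).mul (R1_dI hf a y)).sub ((cP_deriv hf y).sub_const (cP f a))
  refine (h.congr_deriv ?_).congr_of_eventuallyEq (Eventually.of_forall fun ε => ?_)
  · ring
  · simp [mQ]

private theorem R1_dG (hf : Continuous f) (a y : ℝ) : HasDerivAt (fun y => mG f a y) (Real.exp (f y) * mP f a y) y := by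
  have h := ((((cA_deriv hf y).const_add (cA f a)).mul ((cP_deriv hf y).sub_const (cP f a))).sub
    ((cS_deriv hf y).sub_const (cS f a))).sub (((cA_deriv hf y).const_mul (cA f a)).mul (R1_dI hf a y))
  refine (h.congr_deriv ?_).congr_of_eventuallyEq (Eventually.of_forall fun ε => ?_)
  · rw [mP]; ring
  · simp [mG]

theorem R2 (h : PD f g f' g' a b) (hm0 : 0 ≤ m) (hm : Mn f g a b m) (ha : f a < g a) (hb : f b = g b) :
    0 ≤ be f g a b * dM f g a b * Real.exp (-g b) + (g a - f a) / (b - a) * (al f g a b * be f g a b * mI f a b - mG f a b) := by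
  have hab := h.ab
  have hab' : 0 < b - a := sub_pos.2 hab
  have hf := h.conf
  have hg := h.cong
  have hD : 0 < dD f g a b := dD_pos' hf hg hab h.le h.fat
  set k : ℝ := (g a - f a) / (b - a) with hk
  have hk0 : 0 < k := div_pos (by linarith) hab'
  have hkm : k * (b - a) = g a - f a := by rw [hk]; field_simp
  have hψ : ∀ δ, 0 < δ → δ < b - a →
      dJ (fun x => f x + k * 0) g a (b - 0) ≤ dJ (fun x => f x + k * δ) g a (b - δ) := by
    intro δ h0 h1
    have hch : ∀ x ∈ Icc a (b - δ), k * (b - x) ≤ g x - f x := by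
      intro x hx
      have h2 := h.chord (x := x) ⟨hx.1, by linarith [hx.2]⟩
      rw [hb, sub_self, mul_zero, add_zero] at h2
      have h3 : (b - a) * (k * (b - x)) ≤ (b - a) * (g x - f x) := by
        have : (b - a) * (k * (b - x)) = (b - x) * (g a - f a) := by rw [← hkm]; ring
        rw [this]; exact h2
      exact le_of_mul_le_mul_left h3 hab'
    have h2 := hm.2 a (b - δ) (k * δ) le_rfl (by linarith) (by linarith) (mul_nonneg hk0.le h0.le)
      (fun x hx => by
        have h3 := hch x hx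
        have h4 : k * δ ≤ k * (b - x) := mul_le_mul_of_nonneg_left (by linarith [hx.2]) hk0.le
        linarith)
      ⟨a, ⟨le_rfl, by linarith⟩, by
        have h4 : k * δ < k * (b - a) := mul_lt_mul_of_pos_left h1 hk0
        linarith⟩
    have h5 : -m * (b - a) ≤ -m * (b - δ - a) := by nlinarith
    rw [← hm.1] at h5
    have h6 := h5.trans h2
    simpa using h6
  have hd : HasDerivAt (fun δ : ℝ => dJ (fun x => f x + k * δ) g a (b - δ))
      (be f g a b * dM f g a b * Real.exp (-g b) + k * (al f g a b * be f g a b * mI f a b - mG f a b)) 0 := by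
    have e : (fun δ : ℝ => dJ (fun x => f x + k * δ) g a (b - δ)) = fun δ : ℝ =>
      mG g a (b - δ) - Real.exp (k * δ) * mG f a (b - δ) + (mP f a (b - δ) - mP g a (b - δ)) * (mQ f a (b - δ) - mQ g a (b - δ)) / (Real.exp (-(k * δ)) * mI f a (b - δ) - mI g a (b - δ)) := by
      funext δ
      exact R1_up hf (k * δ) a (b - δ)
    rw [e]
    have hy : HasDerivAt (fun δ : ℝ => b - δ) (-1) 0 := by
      simpa using (hasDerivAt_id (0:ℝ)).const_sub b
    have hkδ : HasDerivAt (fun δ : ℝ => k * δ) k 0 := by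
      simpa using (hasDerivAt_id (0:ℝ)).const_mul k
    have comp : ∀ {F : ℝ → ℝ} {F' : ℝ}, HasDerivAt F F' b → HasDerivAt (fun δ : ℝ => F (b - δ)) (-F') 0 := by
      intro F F' hF
      have hF' : HasDerivAt F F' (b - 0) := by rwa [sub_zero]
      have h9 := (hF'.comp (0:ℝ) hy).congr_deriv (show F' * -1 = -F' by ring)
      exact h9
    have d1 : HasDerivAt (fun δ : ℝ => Real.exp (k * δ)) k 0 := by
      simpa using hkδ.exp
    have d2 : HasDerivAt (fun δ : ℝ => Real.exp (-(k * δ))) (-k) 0 := by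
      simpa using hkδ.neg.exp
    have gG := comp (R1_dG hg a b)
    have fG := comp (R1_dG hf a b)
    have fP := comp (R1_dP hf a b)
    have gP := comp (R1_dP hg a b)
    have fQ := comp (R1_dQ hf a b)
    have gQ := comp (R1_dQ hg a b)
    have fI := comp (R1_dI hf a b)
    have gI := comp (R1_dI hg a b)
    have d3 := (d2.mul fI).sub gI
    have hne : Real.exp (-(k * 0)) * mI f a (b - 0) - mI g a (b - 0) ≠ 0 := by
      rw [mul_zero, neg_zero, Real.exp_zero, one_mul, sub_zero]
      exact hD.ne'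
    have d4 := (gG.sub (d1.mul fG)).add (((fP.sub gP).mul (fQ.sub gQ)).mul (d3.inv hne))
    refine (d4.congr_deriv ?_).congr_of_eventuallyEq (Eventually.of_forall fun ε => ?_)
    · simp only [mul_zero, neg_zero, Real.exp_zero, one_mul, sub_zero, Pi.sub_apply, Pi.mul_apply, Pi.inv_apply]
      rw [hb]
      rw [al, be, dM]
      have e1 : mI f a b - mI g a b = dD f g a b := rfl
      have e3 : mI f a b = dD f g a b + mI g a b := by rw [← e1]; ring
      have e2 : Real.exp (-g b) * Real.exp (g b) = 1 := by rw [← Real.exp_add]; simp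
      have hD' := hD.ne'
      have hE := (Real.exp_pos (g b)).ne'
      have e4 : Real.exp (-g b) = (Real.exp (g b))⁻¹ := Real.exp_neg _
      rw [e1]
      rw [e4, e3]
      field_simp
      ring
    · simp only [Pi.add_apply, Pi.sub_apply, Pi.mul_apply, Pi.inv_apply]
      rw [div_eq_mul_inv]
  exact R1_der hd hab' hψ

end OP

end Pool.Agent.Lib.MP_1dedaf_gt.DK
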