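import Pool.Agent.Lib.MP_1dedaf_gt.Mg.G030
import Pool.Agent.Lib.MP_1dedaf_gt.DK.OP.B3

/-!
# TASK OP X3: `Xi' > 0`, `Xi > 0`

Proof. Put `W x = mP g a x * mI f a x - mP f a x * mI g a x`. Its derivative at `x` is
`W1 x = mL g a x e^{-g x} mI f a x + mP g a x e^{-f x} - mL f a x e^{-f x} mI g a x - mP f a x e^{-g x}` (`cA_deriv` ...; `d/dx mP φ a x = mL φ a x e^{-φ x}`).
`X3_der`: if `x ∈ (a, b]` and `W x = 0` then with `p = mP f a x / mI f a x = mP g a x / mI g a x` we have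
`W1 x = mI f a x * Hg - mI g a x * Hf`, `Hφ = (mL φ a x - p) e^{-φ x}`. By `X1_ccv`, `X1_cvx` on `[a, x]` (use `PD.sub`), `p ≥ 0`, `e^{-g a} ≤ e^{-f a}`: `Hg ≥ Hf`, and
`Hf > 0` (`X1_pos`); `mI f a x > mI g a x > 0` (`dD_pos'`). So `W1 x > 0`.
`X3_lt`: when `f a < g a`: `W > 0` near `a` by `X2`. If `W x ≤ 0` for some `x ∈ (a, b]`, let `x0` be the smallest zero of `W` in `(a, b]` (closedness); `W > 0` on `(a, x0)`,
so the derivative of `W` at `x0` is `≤ 0`, against `X3_der`. `X3_W`: in general, apply `X3_lt` to `f - ε` (`PD.down`): there `mP` is the same and `mI` is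
`e^{ε} mI` (`mP_up`, `mI_up` with `c = -ε`): `mP g a x * e^ε mI f a x - mP f a x * mI g a x > 0` for all `ε > 0`, `x ∈ (a, b]`, so `W ≥ 0` on `(a, b]`. If `W x = 0` with
`x ∈ (a, b]` then the derivative at `x` is positive, so `W < 0` at points just left of `x`: contradiction.
`Xi'_pos`: `Xi' = W b / dD`. `Xi_pos`: apply `Xi'_pos` to `PD.refl` and `m*_neg`.
-/

set_option autoImplicit false

open MeasureTheory Set Filter Topology

namespace Pool.Agent.Lib.MP_1dedaf_gt.DK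

namespace OP

variable {f g f' g' : ℝ → ℝ} {a b : ℝ}

theorem X3_dI {φ : ℝ → ℝ} (h : Continuous φ) (a x : ℝ) : HasDerivAt (fun x => mI φ a x) (Real.exp (-φ x)) x := by
  have := (cI_deriv h x).sub_const (cI φ a)
  exact this

theorem X3_dP {φ : ℝ → ℝ} (h : Continuous φ) (a x : ℝ) : HasDerivAt (fun x => mP φ a x) (mL φ a x * Real.exp (-φ x)) x := by
  have h1 := ((cP_deriv h x).sub_const (cP φ a)).sub ((X3_dI h a x).const_mul (cA φ a))
  have h2 : cA φ x * Real.exp (-φ x) - cA φ a * Real.exp (-φ x) = mL φ a x * Real.exp (-φ x) := by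
    unfold mL; ring
  rw [← h2]
  exact h1

theorem X3_dW {f g : ℝ → ℝ} (hf : Continuous f) (hg : Continuous g) (a x : ℝ) :
    HasDerivAt (fun x => mP g a x * mI f a x - mP f a x * mI g a x)
      ((mL g a x * Real.exp (-g x) * mI f a x + mP g a x * Real.exp (-f x)) -
        (mL f a x * Real.exp (-f x) * mI g a x + mP f a x * Real.exp (-g x))) x :=
  ((X3_dP hg a x).mul (X3_dI hf a x)).sub ((X3_dP hf a x).mul (X3_dI hg a x))

theorem X3_der (h : PD f g f' g' a b) {x : ℝ} (hx : x ∈ Ioc a b) (h0 : mP g a x * mI f a x - mP f a x * mI g a x = 0) :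
    0 < (mL g a x * Real.exp (-g x) * mI f a x + mP g a x * Real.exp (-f x)) -
        (mL f a x * Real.exp (-f x) * mI g a x + mP f a x * Real.exp (-g x)) := by
  have h' : PD f g f' g' a x := h.sub le_rfl hx.1 hx.2
  have hIf : 0 < mI f a x := mI_pos h'.conf h'.ab
  have hIg : 0 < mI g a x := mI_pos h'.cong h'.ab
  have hPf : 0 < mP f a x := mP_pos h'.conf h'.ab
  obtain ⟨p, hp⟩ : ∃ p, p = mP f a x / mI f a x := ⟨_, rfl⟩
  have hp0 : 0 < p := by rw [hp]; positivity
  have hpf : mP f a x = p * mI f a x := by rw [hp]; field_simp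
  have hpg : mP g a x = p * mI g a x := by
    have h1 : mP g a x * mI f a x = (p * mI g a x) * mI f a x := by
      rw [hpf] at h0; linarith
    exact mul_right_cancel₀ hIf.ne' h1
  have h1 := X1_cvx h'.df h'.cf h'.ab hpf h'.mf
  have h2 := X1_ccv h'.dg h'.cg h'.ab hpg h'.mg
  have h3 := X1_pos h'.conf h'.ab hpf
  have h4 : 0 < dD f g a x := dD_pos' h'.conf h'.cong h'.ab h'.le h'.fat
  have h5 : Real.exp (-g a) ≤ Real.exp (-f a) :=
    Real.exp_le_exp.2 (neg_le_neg (h.le a ⟨le_rfl, h.ab.le⟩))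
  have h6 : p * Real.exp (-g a) ≤ p * Real.exp (-f a) := mul_le_mul_of_nonneg_left h5 hp0.le
  have hH : (mL f a x - p) * Real.exp (-f x) ≤ (mL g a x - p) * Real.exp (-g x) := by linarith
  have hHf : 0 < (mL f a x - p) * Real.exp (-f x) := mul_pos h3 (Real.exp_pos _)
  have h7 : mI g a x < mI f a x := by unfold dD at h4; linarith
  have h8 : mI g a x * ((mL f a x - p) * Real.exp (-f x)) < mI f a x * ((mL f a x - p) * Real.exp (-f x)) :=
    mul_lt_mul_of_pos_right h7 hHf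
  have h9 : mI f a x * ((mL f a x - p) * Real.exp (-f x)) ≤ mI f a x * ((mL g a x - p) * Real.exp (-g x)) :=
    mul_le_mul_of_nonneg_left hH hIf.le
  have h10 : (mL g a x * Real.exp (-g x) * mI f a x + mP g a x * Real.exp (-f x)) -
        (mL f a x * Real.exp (-f x) * mI g a x + mP f a x * Real.exp (-g x))
      = mI f a x * ((mL g a x - p) * Real.exp (-g x)) - mI g a x * ((mL f a x - p) * Real.exp (-f x)) := by
    rw [hpf, hpg]; ring
  rw [h10]
  linarith

theorem X3_left {W : ℝ → ℝ} {d x : ℝ} (hW : HasDerivAt W d x) (hd : 0 < d) (h0 : W x = 0) : ∀ᶠ z in 𝓝[<] x, W z < 0 := by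
  have h1 := hasDerivAt_iff_tendsto_slope.1 hW
  have h2 : Tendsto (slope W x) (𝓝[<] x) (𝓝 d) := by
    refine h1.mono_left (nhdsWithin_mono _ ?_)
    intro y hy
    exact (ne_of_lt hy : y ≠ x)
  filter_upwards [h2.eventually_const_lt hd, self_mem_nhdsWithin] with z hz hzx
  rw [slope_def_field, h0, sub_zero] at hz
  have hzx' : z - x < 0 := sub_neg.2 hzx
  by_contra hc
  push Not at hc
  exact absurd hz (not_lt.2 (div_nonpos_of_nonneg_of_nonpos hc hzx'.le))

theorem X3_lt (h : PD f g f' g' a b) (hlt : f a < g a) {x : ℝ} (hx : x ∈ Ioc a b) :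
    0 < mP g a x * mI f a x - mP f a x * mI g a x := by
  set W : ℝ → ℝ := fun x => mP g a x * mI f a x - mP f a x * mI g a x with hWdef
  have hWc : Continuous W := by
    rw [continuous_iff_continuousAt]
    intro y
    exact (X3_dW h.conf h.cong a y).continuousAt
  show 0 < W x
  by_contra hc
  push Not at hc
  have h1 : ∀ᶠ y in 𝓝[>] a, 0 < W y := X2 h.conf h.cong hlt
  have h2 : ∀ᶠ y in 𝓝[>] a, y ∈ Ioo a x := Ioo_mem_nhdsGT hx.1
  obtain ⟨y0, hy0, hy0x⟩ := (h1.and h2).exists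
  have hcomp : IsCompact (Icc y0 x ∩ {z | W z ≤ 0}) :=
    isCompact_Icc.inter_right (isClosed_le hWc continuous_const)
  have hne : (Icc y0 x ∩ {z | W z ≤ 0}).Nonempty := ⟨x, ⟨hy0x.2.le, le_rfl⟩, hc⟩
  obtain ⟨x0, hx0, hmin⟩ := hcomp.exists_isLeast hne
  have hx0y : y0 < x0 := by
    rcases lt_or_eq_of_le hx0.1.1 with h3 | h3
    · exact h3
    · exfalso
      have h4 : W x0 ≤ 0 := hx0.2
      rw [← h3] at h4
      exact absurd hy0 (not_lt.2 h4)
  have hpos : ∀ z, y0 ≤ z → z < x0 → 0 < W z := by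
    intro z hz1 hz2
    by_contra hz
    push Not at hz
    exact absurd (hmin ⟨⟨hz1, hz2.le.trans hx0.1.2⟩, hz⟩) (not_le.2 hz2)
  have hx0mem : x0 ∈ Ioc a b := ⟨hy0x.1.trans hx0y, hx0.1.2.trans hx.2⟩
  have hev : ∀ᶠ z in 𝓝[<] x0, 0 < W z := by
    filter_upwards [Ioo_mem_nhdsLT hx0y] with z hz
    exact hpos z hz.1.le hz.2
  have hW0 : W x0 = 0 := by
    refine le_antisymm hx0.2 ?_
    have h5 : Tendsto W (𝓝[<] x0) (𝓝 (W x0)) := (hWc.tendsto x0).mono_left nhdsWithin_le_nhds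
    exact ge_of_tendsto h5 (hev.mono (fun z hz => hz.le))
  have h6 := X3_left (X3_dW h.conf h.cong a x0) (X3_der h hx0mem hW0) hW0
  obtain ⟨z, hz1, hz2⟩ := (hev.and h6).exists
  exact absurd hz1 (not_lt.2 hz2.le)

theorem X3_nonneg (h : PD f g f' g' a b) {x : ℝ} (hx : x ∈ Ioc a b) :
    0 ≤ mP g a x * mI f a x - mP f a x * mI g a x := by
  have key : ∀ ε : ℝ, 0 < ε → 0 ≤ mP g a x * (Real.exp ε * mI f a x) - mP f a x * mI g a x := by
    intro ε hε
    have h1 := h.down hε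
    have h2 : f a ≤ g a := h.le a ⟨le_rfl, h.ab.le⟩
    have h3 : (fun x => f x - ε) a < g a := by
      show f a - ε < g a
      linarith
    have h4 := X3_lt h1 h3 hx
    have h5 : (fun x => f x - ε) = (fun x => f x + (-ε)) := by
      funext y; ring
    rw [h5, mP_up h.conf, mI_up h.conf, neg_neg] at h4
    exact h4.le
  have hc : Continuous (fun ε : ℝ => mP g a x * (Real.exp ε * mI f a x) - mP f a x * mI g a x) := by fun_prop
  have ht : Tendsto (fun ε : ℝ => mP g a x * (Real.exp ε * mI f a x) - mP f a x * mI g a x) (𝓝[>] 0)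
      (𝓝 (mP g a x * mI f a x - mP f a x * mI g a x)) := by
    have h1 := (hc.tendsto 0).mono_left (nhdsWithin_le_nhds (s := Ioi (0:ℝ)))
    simpa using h1
  refine ge_of_tendsto ht ?_
  filter_upwards [self_mem_nhdsWithin] with ε hε
  exact key ε hε

theorem X3_W (h : PD f g f' g' a b) : 0 < mP g a b * mI f a b - mP f a b * mI g a b := by
  have hb : b ∈ Ioc a b := ⟨h.ab, le_rfl⟩
  rcases lt_or_eq_of_le (X3_nonneg h hb) with h1 | h1
  · exact h1
  · exfalso
    have h2 := X3_left (X3_dW h.conf h.cong a b) (X3_der h hb h1.symm) h1.symm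
    have h3 : ∀ᶠ z in 𝓝[<] b, z ∈ Ioo a b := Ioo_mem_nhdsLT h.ab
    obtain ⟨z, hz1, hz2⟩ := (h2.and h3).exists
    exact absurd hz1 (not_lt.2 (X3_nonneg h ⟨hz2.1, hz2.2.le⟩))

theorem Xi'_pos (h : PD f g f' g' a b) : 0 < Xi' f g a b := by
  have h1 : 0 < dD f g a b := dD_pos' h.conf h.cong h.ab h.le h.fat
  have h2 : Xi' f g a b = (mP g a b * mI f a b - mP f a b * mI g a b) / dD f g a b := by
    unfold Xi' al
    rw [eq_div_iff h1.ne', sub_mul]
    have h3 : (mP f a b - mP g a b) / dD f g a b * mI f a b * dD f g a b = (mP f a b - mP g a b) * mI f a b := by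
      field_simp
    rw [h3]
    unfold dD
    ring
  rw [h2]
  exact div_pos (X3_W h) h1

theorem Xi_pos (h : PD f g f' g' a b) : 0 < Xi f g a b := by
  have h1 := Xi'_pos h.refl
  unfold Xi' al dD at h1
  simp only [mP_neg, mI_neg] at h1
  unfold Xi be dD
  exact h1

end OP

end Pool.Agent.Lib.MP_1dedaf_gt.DK
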